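import Mathlib

open Finset

namespace Pool.Agent.Helper93.EKR

/-! ### binomial identities -/

/-- identity (gamma) -/
lemma alt_gamma (m q s : ℕ) :
    ∑ i ∈ range (m + 1), (-1 : ℝ) ^ i * (m.choose i : ℝ) * ((m + q - i).choose (m + s) : ℝ)
      = (q.choose s : ℝ) := by
  induction m with
  | zero => simp
  | succ m ih =>
    have h1 : ∑ i ∈ range (m + 1 + 1), (-1 : ℝ) ^ i * ((m + 1).choose i : ℝ) *
        ((m + 1 + q - i).choose (m + 1 + s) : ℝ) =
        ∑ i ∈ range (m + 1), (-1 : ℝ) ^ i * (m.choose i : ℝ) *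
          ((m + 1 + q - i).choose (m + 1 + s) : ℝ) -
        ∑ i ∈ range (m + 1), (-1 : ℝ) ^ i * (m.choose i : ℝ) *
          ((m + q - i).choose (m + 1 + s) : ℝ) := by
      rw [sum_range_succ']
      have h2 : ∀ i ∈ range (m + 1), (-1 : ℝ) ^ (i + 1) * ((m + 1).choose (i + 1) : ℝ) *
          ((m + 1 + q - (i + 1)).choose (m + 1 + s) : ℝ) =
          (-1 : ℝ) ^ (i + 1) * (m.choose (i + 1) : ℝ) *
            ((m + 1 + q - (i + 1)).choose (m + 1 + s) : ℝ) -
          (-1 : ℝ) ^ i * (m.choose i : ℝ) * ((m + q - i).choose (m + 1 + s) : ℝ) := by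
        intro i _
        rw [Nat.choose_succ_succ, show m + 1 + q - (i + 1) = m + q - i by omega]
        push_cast
        ring
      rw [sum_congr rfl h2, sum_sub_distrib]
      have h3 : ∑ i ∈ range (m + 1), (-1 : ℝ) ^ i * (m.choose i : ℝ) *
          ((m + 1 + q - i).choose (m + 1 + s) : ℝ) =
          ∑ i ∈ range (m + 1), (-1 : ℝ) ^ (i + 1) * (m.choose (i + 1) : ℝ) *
            ((m + 1 + q - (i + 1)).choose (m + 1 + s) : ℝ) +
          (-1 : ℝ) ^ 0 * (m.choose 0 : ℝ) * ((m + 1 + q - 0).choose (m + 1 + s) : ℝ) := by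
        rw [← sum_range_succ' (fun i => (-1 : ℝ) ^ i * (m.choose i : ℝ) *
          ((m + 1 + q - i).choose (m + 1 + s) : ℝ)) (m + 1), sum_range_succ _ (m + 1)]
        simp
      rw [h3]
      simp only [Nat.choose_zero_right]
      ring
    rw [h1, ← sum_sub_distrib, ← ih]
    refine sum_congr rfl fun i hi => ?_
    have hi' : i ≤ m := Nat.lt_succ_iff.1 (mem_range.1 hi)
    rw [show m + 1 + q - i = (m + q - i) + 1 by omega, show m + 1 + s = (m + s) + 1 by omega,
      Nat.choose_succ_succ]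
    push_cast
    ring

/-- identity (alpha) -/
lemma alt_alpha (a K y : ℕ) (h1 : a ≤ y) (h2 : y ≤ a + K) :
    ∑ s ∈ range K, (-1 : ℝ) ^ s * ((a + s).choose s : ℝ) * (y.choose (a + 1 + s) : ℝ)
      = if y = a then 0 else 1 := by
  induction y, h1 using Nat.le_induction with
  | base =>
    rw [if_pos rfl]
    apply sum_eq_zero
    intro s _
    rw [Nat.choose_eq_zero_of_lt (show a < a + 1 + s by omega)]
    simp
  | succ y hy ih =>
    rw [if_neg (by omega)]
    have h3 : ∑ s ∈ range K, (-1 : ℝ) ^ s * ((a + s).choose s : ℝ) *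
        ((y + 1).choose (a + 1 + s) : ℝ) =
        ∑ s ∈ range K, (-1 : ℝ) ^ s * ((a + s).choose s : ℝ) * (y.choose (a + 1 + s) : ℝ) +
        ∑ s ∈ range K, (-1 : ℝ) ^ s * ((a + s).choose s : ℝ) * (y.choose (a + s) : ℝ) := by
      rw [← sum_add_distrib]
      refine sum_congr rfl fun s _ => ?_
      rw [show a + 1 + s = (a + s) + 1 by omega, Nat.choose_succ_succ]
      push_cast; ring
    have h4 : ∑ s ∈ range K, (-1 : ℝ) ^ s * ((a + s).choose s : ℝ) * (y.choose (a + s) : ℝ) =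
        (y.choose a : ℝ) * ∑ s ∈ range K, (-1 : ℝ) ^ s * ((y - a).choose s : ℝ) := by
      rw [mul_sum]
      refine sum_congr rfl fun s _ => ?_
      have := Nat.choose_mul (n := y) (k := a + s) (s := a) (by omega)
      rw [show a + s - a = s by omega] at this
      have h5 : (a + s).choose s = (a + s).choose a := by
        rw [← Nat.choose_symm_add]
      have h6 : (y.choose (a + s) : ℝ) * ((a + s).choose a : ℝ) =
          (y.choose a : ℝ) * ((y - a).choose s : ℝ) := by exact_mod_cast this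
      rw [h5]
      linear_combination (-1 : ℝ) ^ s * h6
    have h5 : ∑ s ∈ range K, (-1 : ℝ) ^ s * ((y - a).choose s : ℝ) =
        if y - a = 0 then 1 else 0 := by
      have h6 : ∑ s ∈ range (y - a + 1), (-1 : ℝ) ^ s * ((y - a).choose s : ℝ) =
          if y - a = 0 then 1 else 0 := by
        have := Int.alternating_sum_range_choose (n := y - a)
        exact_mod_cast this
      rw [← h6]
      symm
      apply sum_subset
      · intro i hi
        rw [mem_range] at hi ⊢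
        omega
      · intro i _ hi
        rw [mem_range] at hi
        rw [Nat.choose_eq_zero_of_lt (by omega)]
        simp
    rw [h3, ih (by omega), h4, h5]
    by_cases hya : y = a
    · subst hya; simp
    · rw [if_neg hya, if_neg (by omega)]
      simp

/-- positive-term form of the (reciprocal) forward differences -/
lemma recip_fwdDiff (r l : ℕ) (hr : 1 ≤ r) :
    ∀ x : ℕ, r ≤ x → (fwdDiff (1 : ℕ))^[l] (fun x : ℕ => (1 : ℝ) / (x.choose r : ℝ)) x =
      (-1 : ℝ) ^ l * ((r : ℝ) / ((r : ℝ) + l)) / ((x + l).choose (r + l) : ℝ) := by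
  induction l with
  | zero =>
    intro x _
    have : (r : ℝ) ≠ 0 := by positivity
    simp [this]
  | succ l ih =>
    intro x hx
    rw [Function.iterate_succ_apply', fwdDiff, ih x hx, ih (x + 1) (by omega)]
    have h1 : ((x + l).choose (r + l) : ℝ) ≠ 0 := by
      have := Nat.choose_pos (show r + l ≤ x + l by omega)
      positivity
    have h2 : ((x + 1 + l).choose (r + l) : ℝ) ≠ 0 := by
      have := Nat.choose_pos (show r + l ≤ x + 1 + l by omega)
      positivity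
    have h3 : ((x + (l + 1)).choose (r + (l + 1)) : ℝ) ≠ 0 := by
      have := Nat.choose_pos (show r + (l + 1) ≤ x + (l + 1) by omega)
      positivity
    -- relations between the binomials
    have e1 : ((x + (l + 1)).choose (r + (l + 1)) : ℝ) * ((r : ℝ) + l + 1) =
        ((x : ℝ) + l + 1) * ((x + l).choose (r + l) : ℝ) := by
      have := Nat.add_one_mul_choose_eq (x + l) (r + l)
      have h : ((x + l + 1 : ℕ) : ℝ) * ((x + l).choose (r + l) : ℝ) =
        ((x + l + 1).choose (r + l + 1) : ℝ) * ((r + l + 1 : ℕ) : ℝ) := by exact_mod_cast this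
      push_cast at h
      rw [show x + (l + 1) = x + l + 1 by ring, show r + (l + 1) = r + l + 1 by ring]
      linarith
    have e2 : ((x + (l + 1)).choose (r + (l + 1)) : ℝ) * ((r : ℝ) + l + 1) =
        ((x : ℝ) + 1 - r) * ((x + 1 + l).choose (r + l) : ℝ) := by
      have := Nat.choose_succ_right_eq (x + 1 + l) (r + l)
      have h : ((x + 1 + l).choose (r + l + 1) : ℝ) * ((r + l + 1 : ℕ) : ℝ) =
        ((x + 1 + l).choose (r + l) : ℝ) * ((x + 1 + l - (r + l) : ℕ) : ℝ) := by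
        exact_mod_cast this
      rw [Nat.cast_sub (by omega)] at h
      push_cast at h
      rw [show x + (l + 1) = x + 1 + l by ring, show r + (l + 1) = r + l + 1 by ring]
      linarith
    have hrl : (r : ℝ) + l ≠ 0 := by positivity
    have hrl1 : (r : ℝ) + l + 1 ≠ 0 := by positivity
    have hxr : (x : ℝ) + 1 - r ≠ 0 := by
      have : (r : ℝ) ≤ x := by exact_mod_cast hx
      intro h; linarith
    have hxl : (x : ℝ) + l + 1 ≠ 0 := by positivity
    have f1 : ((x + l).choose (r + l) : ℝ) =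
        ((x + (l + 1)).choose (r + (l + 1)) : ℝ) * ((r : ℝ) + l + 1) / ((x : ℝ) + l + 1) := by
      field_simp; linarith
    have f2 : ((x + 1 + l).choose (r + l) : ℝ) =
        ((x + (l + 1)).choose (r + (l + 1)) : ℝ) * ((r : ℝ) + l + 1) / ((x : ℝ) + 1 - r) := by
      field_simp; linarith
    rw [f1, f2]
    generalize ((x + (l + 1)).choose (r + (l + 1)) : ℝ) = Z at *
    push_cast
    field_simp
    ring

/-- Newton expansion of a reciprocal binomial -/
lemma recip_newton (r L i : ℕ) (hr : 1 ≤ r) (hL : r ≤ L) :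
    (1 : ℝ) / ((L + i).choose r : ℝ) = ∑ l ∈ range (i + 1), (i.choose l : ℝ) *
      ((-1 : ℝ) ^ l * ((r : ℝ) / ((r : ℝ) + l)) / ((L + l).choose (r + l) : ℝ)) := by
  have := shift_eq_sum_fwdDiff_iter (h := (1 : ℕ)) (fun x : ℕ => (1 : ℝ) / (x.choose r : ℝ)) i L
  simp only [smul_eq_mul, mul_one] at this
  rw [this]
  refine sum_congr rfl fun l _ => ?_
  rw [recip_fwdDiff r l hr L hL, nsmul_eq_mul]

/-- The sum `S` with positive terms. -/
noncomputable def Ssum (a b L ρ : ℕ) : ℝ :=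
  ∑ l ∈ range (a + 1), ((ρ + l).choose l : ℝ) * (a.choose (ρ + 1 + l) : ℝ) *
    (b.choose (ρ + 1 + l) : ℝ) / ((L + l).choose (ρ + 1 + l) : ℝ)

/-- identity (beta), `r = ρ + 1`. -/
lemma beta (a t L ρ : ℕ) (hra : ρ + 1 ≤ a) (hL : ρ + 1 ≤ L) :
    (a.choose (ρ + 1) : ℝ) * ∑ i ∈ range t, (-1 : ℝ) ^ i * ((t + a - 1 - i).choose a : ℝ) *
      ((a - (ρ + 1)).choose i : ℝ) / ((L + i).choose (ρ + 1) : ℝ) = Ssum a (t + ρ) L ρ := by
  -- replace the range by `range (a - ρ)`
  have hrange : ∑ i ∈ range t, (-1 : ℝ) ^ i * ((t + a - 1 - i).choose a : ℝ) *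
      ((a - (ρ + 1)).choose i : ℝ) / ((L + i).choose (ρ + 1) : ℝ) =
      ∑ i ∈ range (a - (ρ + 1) + 1), (-1 : ℝ) ^ i * ((t + a - 1 - i).choose a : ℝ) *
      ((a - (ρ + 1)).choose i : ℝ) / ((L + i).choose (ρ + 1) : ℝ) := by
    rcases Nat.lt_or_ge t (a - (ρ + 1) + 1) with h | h
    · apply sum_subset
      · intro i hi; rw [mem_range] at hi ⊢; omega
      · intro i _ hi
        rw [mem_range] at hi
        rw [Nat.choose_eq_zero_of_lt (show t + a - 1 - i < a by omega)]
        simp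
    · symm
      apply sum_subset
      · intro i hi; rw [mem_range] at hi ⊢; omega
      · intro i _ hi
        rw [mem_range] at hi
        rw [Nat.choose_eq_zero_of_lt (show a - (ρ + 1) < i by omega)]
        simp
  rw [hrange]
  -- Newton expansion
  have h1 : ∑ i ∈ range (a - (ρ + 1) + 1), (-1 : ℝ) ^ i * ((t + a - 1 - i).choose a : ℝ) *
      ((a - (ρ + 1)).choose i : ℝ) / ((L + i).choose (ρ + 1) : ℝ) =
      ∑ i ∈ range (a - (ρ + 1) + 1), ∑ l ∈ range (a - (ρ + 1) + 1),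
        (-1 : ℝ) ^ i * ((t + a - 1 - i).choose a : ℝ) * ((a - (ρ + 1)).choose i : ℝ) *
        ((i.choose l : ℝ) * ((-1 : ℝ) ^ l * (((ρ + 1 : ℕ) : ℝ) / (((ρ + 1 : ℕ) : ℝ) + l)) /
          ((L + l).choose (ρ + 1 + l) : ℝ))) := by
    refine sum_congr rfl fun i hi => ?_
    rw [mem_range] at hi
    rw [← mul_sum, div_eq_mul_one_div, recip_newton (ρ + 1) L i (by omega) hL]
    congr 1
    apply sum_subset
    · intro l hl; rw [mem_range] at hl ⊢; omega
    · intro l _ hl
      rw [mem_range] at hl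
      rw [Nat.choose_eq_zero_of_lt (show i < l by omega)]
      simp
  rw [h1, sum_comm, mul_sum, Ssum]
  have hsub : range (a - (ρ + 1) + 1) ⊆ range (a + 1) := by
    intro i hi; rw [mem_range] at hi ⊢; omega
  rw [← sum_subset hsub (f := fun l => ((ρ + l).choose l : ℝ) * (a.choose (ρ + 1 + l) : ℝ) *
    ((t + ρ).choose (ρ + 1 + l) : ℝ) / ((L + l).choose (ρ + 1 + l) : ℝ))]
  swap
  · intro l _ hl
    rw [mem_range] at hl
    rw [Nat.choose_eq_zero_of_lt (show a < ρ + 1 + l by omega)]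
    simp
  refine sum_congr rfl fun l hl => ?_
  rw [mem_range] at hl
  -- inner sum
  have h2 : ∑ i ∈ range (a - (ρ + 1) + 1),
        (-1 : ℝ) ^ i * ((t + a - 1 - i).choose a : ℝ) * ((a - (ρ + 1)).choose i : ℝ) *
        ((i.choose l : ℝ) * ((-1 : ℝ) ^ l * (((ρ + 1 : ℕ) : ℝ) / (((ρ + 1 : ℕ) : ℝ) + l)) /
          ((L + l).choose (ρ + 1 + l) : ℝ))) =
      (∑ i ∈ range (a - (ρ + 1) + 1),
        (-1 : ℝ) ^ i * ((t + a - 1 - i).choose a : ℝ) * ((a - (ρ + 1)).choose i : ℝ) *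
        (i.choose l : ℝ)) * ((-1 : ℝ) ^ l * (((ρ + 1 : ℕ) : ℝ) / (((ρ + 1 : ℕ) : ℝ) + l)) /
          ((L + l).choose (ρ + 1 + l) : ℝ)) := by
    rw [sum_mul]
    refine sum_congr rfl fun i _ => ?_
    ring
  rw [h2]
  have h3 : ∑ i ∈ range (a - (ρ + 1) + 1),
        (-1 : ℝ) ^ i * ((t + a - 1 - i).choose a : ℝ) * ((a - (ρ + 1)).choose i : ℝ) *
        (i.choose l : ℝ) = (-1 : ℝ) ^ l * ((a - (ρ + 1)).choose l : ℝ) *
          ((t + ρ).choose (ρ + 1 + l) : ℝ) := by
    obtain ⟨m, hm⟩ : ∃ m, a - (ρ + 1) = l + m := ⟨a - (ρ + 1) - l, by omega⟩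
    have ha : a = ρ + 1 + l + m := by omega
    rw [hm, show l + m + 1 = l + (m + 1) by ring, sum_range_add]
    rw [sum_eq_zero (s := range l)]
    · rw [zero_add]
      have h4 := alt_gamma m (t + ρ) (ρ + 1 + l)
      rw [← h4, mul_sum]
      refine sum_congr rfl fun i hi => ?_
      rw [mem_range] at hi
      have h5 := Nat.choose_mul (n := l + m) (k := l + i) (s := l) (by omega)
      rw [show l + m - l = m by omega, show l + i - l = i by omega] at h5
      have h6 : ((l + m).choose (l + i) : ℝ) * ((l + i).choose l : ℝ) =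
        ((l + m).choose l : ℝ) * (m.choose i : ℝ) := by exact_mod_cast h5
      rw [show t + a - 1 - (l + i) = m + (t + ρ) - i by omega, show m + (ρ + 1 + l) = a by omega,
        pow_add]
      linear_combination ((-1 : ℝ) ^ l * (-1 : ℝ) ^ i *
        ((m + (t + ρ) - i).choose a : ℝ)) * h6
    · intro i hi
      rw [mem_range] at hi
      rw [Nat.choose_eq_zero_of_lt (show i < l by omega)]
      simp
  rw [h3]
  have hsq : (-1 : ℝ) ^ l * (-1 : ℝ) ^ l = 1 := by
    rw [← pow_add, ← two_mul, pow_mul]; simp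
  -- combinatorial rearrangement
  have e1 : (a.choose (ρ + 1) : ℝ) * ((a - (ρ + 1)).choose l : ℝ) =
      (a.choose (ρ + 1 + l) : ℝ) * ((ρ + 1 + l).choose (ρ + 1) : ℝ) := by
    have := Nat.choose_mul (n := a) (k := ρ + 1 + l) (s := ρ + 1) (by omega)
    rw [show ρ + 1 + l - (ρ + 1) = l by omega] at this
    exact_mod_cast this.symm
  have e2 : ((ρ + 1 + l).choose (ρ + 1) : ℝ) * ((ρ + 1 : ℕ) : ℝ) =
      (((ρ + 1 : ℕ) : ℝ) + l) * ((ρ + l).choose l : ℝ) := by
    have := Nat.add_one_mul_choose_eq (ρ + l) ρ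
    rw [show (ρ + l).choose ρ = (ρ + l).choose l by rw [Nat.choose_symm_add]] at this
    rw [show ρ + 1 + l = ρ + l + 1 by ring]
    have h : ((ρ + l + 1 : ℕ) : ℝ) * ((ρ + l).choose l : ℝ) =
      ((ρ + l + 1).choose (ρ + 1) : ℝ) * ((ρ + 1 : ℕ) : ℝ) := by exact_mod_cast this
    push_cast at h ⊢
    linarith
  have hpos : (((ρ + 1 : ℕ) : ℝ) + l) ≠ 0 := by positivity
  have hpos2 : ((L + l).choose (ρ + 1 + l) : ℝ) ≠ 0 := by
    have := Nat.choose_pos (show ρ + 1 + l ≤ L + l by omega)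
    positivity
  have e3 : (((ρ + 1 : ℕ) : ℝ) / (((ρ + 1 : ℕ) : ℝ) + l)) * ((ρ + 1 + l).choose (ρ + 1) : ℝ) =
      ((ρ + l).choose l : ℝ) := by
    rw [div_mul_eq_mul_div, div_eq_iff hpos]; linarith
  calc (a.choose (ρ + 1) : ℝ) * ((-1 : ℝ) ^ l * ((a - (ρ + 1)).choose l : ℝ) *
          ((t + ρ).choose (ρ + 1 + l) : ℝ) *
          ((-1 : ℝ) ^ l * (((ρ + 1 : ℕ) : ℝ) / (((ρ + 1 : ℕ) : ℝ) + l)) /
          ((L + l).choose (ρ + 1 + l) : ℝ)))
      = ((-1 : ℝ) ^ l * (-1 : ℝ) ^ l) * ((a.choose (ρ + 1) : ℝ) * ((a - (ρ + 1)).choose l : ℝ)) *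
          (((ρ + 1 : ℕ) : ℝ) / (((ρ + 1 : ℕ) : ℝ) + l)) * ((t + ρ).choose (ρ + 1 + l) : ℝ) /
          ((L + l).choose (ρ + 1 + l) : ℝ) := by ring
    _ = (((((ρ + 1 : ℕ) : ℝ) / (((ρ + 1 : ℕ) : ℝ) + l)) * ((ρ + 1 + l).choose (ρ + 1) : ℝ))) *
          (a.choose (ρ + 1 + l) : ℝ) * ((t + ρ).choose (ρ + 1 + l) : ℝ) /
          ((L + l).choose (ρ + 1 + l) : ℝ) := by rw [hsq, e1]; ring
    _ = _ := by rw [e3]

end Pool.Agent.Helper93.EKR
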