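import Mathlib
import Pool.Agent.Helper93.EKR1

open Finset

namespace Pool.Agent.Helper93.EKR

lemma Ssum_nonneg (a b L ρ : ℕ) : 0 ≤ Ssum a b L ρ := by
  unfold Ssum
  apply sum_nonneg
  intro l _
  positivity

/-- monotonicity in `ρ` -/
lemma Ssum_mono (a t L ρ : ℕ) (hL : ρ + 2 ≤ L)
    (hc : ((a : ℝ) - (ρ + 1)) * (t + ρ) ≤ (ρ + 1) * ((L : ℝ) - (ρ + 1))) :
    Ssum a (t + ρ + 1) L (ρ + 1) ≤ Ssum a (t + ρ) L ρ := by
  unfold Ssum
  apply sum_le_sum
  intro l _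
  rcases Nat.lt_or_ge a (ρ + 1 + 1 + l) with ha | ha
  · rw [Nat.choose_eq_zero_of_lt ha]
    simp only [Nat.cast_zero, mul_zero, zero_mul, zero_div]
    positivity
  rcases Nat.lt_or_ge l t with hlt | hlt
  swap
  · rw [Nat.choose_eq_zero_of_lt (show t + ρ + 1 < ρ + 1 + 1 + l by omega)]
    simp only [Nat.cast_zero, mul_zero, zero_div]
    positivity
  have hV0 : 0 < ((L + l).choose (ρ + 1 + l) : ℝ) := by
    have := Nat.choose_pos (show ρ + 1 + l ≤ L + l by omega)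
    positivity
  have hV1 : 0 < ((L + l).choose (ρ + 1 + 1 + l) : ℝ) := by
    have := Nat.choose_pos (show ρ + 1 + 1 + l ≤ L + l by omega)
    positivity
  -- relations
  have e1 : ((ρ + 1 + l).choose l : ℝ) * ((ρ : ℝ) + 1) = ((ρ + l).choose l : ℝ) * ((ρ : ℝ) + 1 + l) := by
    have h := Nat.choose_mul_succ_eq (ρ + l) l
    rw [show ρ + l + 1 - l = ρ + 1 by omega, show ρ + l + 1 = ρ + 1 + l by ring] at h
    have h' : ((ρ + l).choose l : ℝ) * ((ρ + 1 + l : ℕ) : ℝ) =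
      ((ρ + 1 + l).choose l : ℝ) * ((ρ + 1 : ℕ) : ℝ) := by exact_mod_cast h
    push_cast at h'
    linarith
  have e2 : (a.choose (ρ + 1 + 1 + l) : ℝ) * ((ρ : ℝ) + 2 + l) =
      (a.choose (ρ + 1 + l) : ℝ) * ((a : ℝ) - (ρ + 1 + l)) := by
    have h := Nat.choose_succ_right_eq a (ρ + 1 + l)
    have h' : (a.choose (ρ + 1 + l + 1) : ℝ) * ((ρ + 1 + l + 1 : ℕ) : ℝ) =
      (a.choose (ρ + 1 + l) : ℝ) * ((a - (ρ + 1 + l) : ℕ) : ℝ) := by exact_mod_cast h
    rw [Nat.cast_sub (by omega)] at h'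
    push_cast at h'
    rw [show ρ + 1 + 1 + l = ρ + 1 + l + 1 by ring]
    linarith
  have e3 : ((t + ρ + 1).choose (ρ + 1 + 1 + l) : ℝ) * ((ρ : ℝ) + 2 + l) =
      ((t + ρ).choose (ρ + 1 + l) : ℝ) * ((t : ℝ) + ρ + 1) := by
    have h := Nat.add_one_mul_choose_eq (t + ρ) (ρ + 1 + l)
    have h' : ((t + ρ + 1 : ℕ) : ℝ) * ((t + ρ).choose (ρ + 1 + l) : ℝ) =
      ((t + ρ + 1).choose (ρ + 1 + l + 1) : ℝ) * ((ρ + 1 + l + 1 : ℕ) : ℝ) := by exact_mod_cast h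
    push_cast at h'
    rw [show ρ + 1 + 1 + l = ρ + 1 + l + 1 by ring]
    linarith
  have e4 : ((L + l).choose (ρ + 1 + 1 + l) : ℝ) * ((ρ : ℝ) + 2 + l) =
      ((L + l).choose (ρ + 1 + l) : ℝ) * ((L : ℝ) - (ρ + 1)) := by
    have h := Nat.choose_succ_right_eq (L + l) (ρ + 1 + l)
    have h' : ((L + l).choose (ρ + 1 + l + 1) : ℝ) * ((ρ + 1 + l + 1 : ℕ) : ℝ) =
      ((L + l).choose (ρ + 1 + l) : ℝ) * ((L + l - (ρ + 1 + l) : ℕ) : ℝ) := by exact_mod_cast h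
    rw [Nat.cast_sub (by omega)] at h'
    push_cast at h'
    rw [show ρ + 1 + 1 + l = ρ + 1 + l + 1 by ring]
    linarith
  have hρ1 : (0 : ℝ) < (ρ : ℝ) + 1 := by positivity
  have hρ2 : (0 : ℝ) < (ρ : ℝ) + 2 + l := by positivity
  have hLr : (0 : ℝ) < (L : ℝ) - (ρ + 1) := by
    have : ((ρ + 2 : ℕ) : ℝ) ≤ L := by exact_mod_cast hL
    push_cast at this; linarith
  have f1 : ((ρ + 1 + l).choose l : ℝ) = ((ρ + l).choose l : ℝ) * ((ρ : ℝ) + 1 + l) / ((ρ : ℝ) + 1) := by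
    rw [eq_div_iff hρ1.ne']; exact e1
  have f2 : (a.choose (ρ + 1 + 1 + l) : ℝ) =
      (a.choose (ρ + 1 + l) : ℝ) * ((a : ℝ) - (ρ + 1 + l)) / ((ρ : ℝ) + 2 + l) := by
    rw [eq_div_iff hρ2.ne']; exact e2
  have f3 : ((t + ρ + 1).choose (ρ + 1 + 1 + l) : ℝ) =
      ((t + ρ).choose (ρ + 1 + l) : ℝ) * ((t : ℝ) + ρ + 1) / ((ρ : ℝ) + 2 + l) := by
    rw [eq_div_iff hρ2.ne']; exact e3
  have f4 : ((L + l).choose (ρ + 1 + 1 + l) : ℝ) =
      ((L + l).choose (ρ + 1 + l) : ℝ) * ((L : ℝ) - (ρ + 1)) / ((ρ : ℝ) + 2 + l) := by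
    rw [eq_div_iff hρ2.ne']; exact e4
  rw [f1, f2, f3, f4]
  have hX : 0 ≤ ((ρ + l).choose l : ℝ) := by positivity
  have hY : 0 ≤ (a.choose (ρ + 1 + l) : ℝ) := by positivity
  have hW : 0 ≤ ((t + ρ).choose (ρ + 1 + l) : ℝ) := by positivity
  generalize ((ρ + l).choose l : ℝ) = X at *
  generalize (a.choose (ρ + 1 + l) : ℝ) = Y at *
  generalize ((t + ρ).choose (ρ + 1 + l) : ℝ) = W at *
  generalize ((L + l).choose (ρ + 1 + l) : ℝ) = V at *
  have hfac : X * ((ρ : ℝ) + 1 + l) / ((ρ : ℝ) + 1) * (Y * ((a : ℝ) - (ρ + 1 + l)) / ((ρ : ℝ) + 2 + l)) *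
      (W * ((t : ℝ) + ρ + 1) / ((ρ : ℝ) + 2 + l)) / (V * ((L : ℝ) - (ρ + 1)) / ((ρ : ℝ) + 2 + l)) =
      (X * Y * W / V) * ((((ρ : ℝ) + 1 + l) * ((t : ℝ) + ρ + 1) * ((a : ℝ) - (ρ + 1 + l))) /
        (((ρ : ℝ) + 1) * ((ρ : ℝ) + 2 + l) * ((L : ℝ) - (ρ + 1)))) := by
    field_simp
  rw [hfac]
  have hratio : (((ρ : ℝ) + 1 + l) * ((t : ℝ) + ρ + 1) * ((a : ℝ) - (ρ + 1 + l))) /
        (((ρ : ℝ) + 1) * ((ρ : ℝ) + 2 + l) * ((L : ℝ) - (ρ + 1))) ≤ 1 := by
    rw [div_le_one (by positivity)]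
    have hl : (l : ℝ) + 1 ≤ t := by exact_mod_cast hlt
    have hal : (0 : ℝ) ≤ (a : ℝ) - (ρ + 1 + l) := by
      have : ((ρ + 1 + 1 + l : ℕ) : ℝ) ≤ a := by exact_mod_cast ha
      push_cast at this; linarith
    have h1 : ((ρ : ℝ) + 1 + l) * ((t : ℝ) + ρ + 1) ≤ ((ρ : ℝ) + 2 + l) * ((t : ℝ) + ρ) := by
      nlinarith
    have h2 : ((a : ℝ) - (ρ + 1 + l)) ≤ ((a : ℝ) - (ρ + 1)) := by
      have : (0 : ℝ) ≤ l := by positivity
      linarith
    calc ((ρ : ℝ) + 1 + l) * ((t : ℝ) + ρ + 1) * ((a : ℝ) - (ρ + 1 + l))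
        ≤ ((ρ : ℝ) + 2 + l) * ((t : ℝ) + ρ) * ((a : ℝ) - (ρ + 1 + l)) := by gcongr
      _ ≤ ((ρ : ℝ) + 2 + l) * ((t : ℝ) + ρ) * ((a : ℝ) - (ρ + 1)) := by gcongr
      _ = ((ρ : ℝ) + 2 + l) * (((a : ℝ) - (ρ + 1)) * (t + ρ)) := by ring
      _ ≤ ((ρ : ℝ) + 2 + l) * ((ρ + 1) * ((L : ℝ) - (ρ + 1))) := by gcongr
      _ = _ := by ring
  calc (X * Y * W / V) * ((((ρ : ℝ) + 1 + l) * ((t : ℝ) + ρ + 1) * ((a : ℝ) - (ρ + 1 + l))) /
        (((ρ : ℝ) + 1) * ((ρ : ℝ) + 2 + l) * ((L : ℝ) - (ρ + 1)))) ≤ (X * Y * W / V) * 1 := by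
        gcongr
    _ = X * Y * W / V := mul_one _

/-- the base case `ρ = 1` -/
lemma base_ineq (a t L : ℕ) (ha : 1 ≤ a) (hL : 2 ≤ L)
    (hN : ((t : ℝ) + 1) * a ≤ (L : ℝ) + t) :
    ((L : ℝ) + t + a) * Ssum a (t + 1) L 1 + a * Ssum (a - 1) (t + 1) (L - 1) 0 ≤ (L : ℝ) + t := by
  set T : ℕ → ℝ := fun j => (a.choose j : ℝ) * ((t + 1).choose j : ℝ) / ((L - 2 + j).choose j : ℝ)
    with hT
  have hTnn : ∀ j, 0 ≤ T j := fun j => by rw [hT]; positivity
  have hden : ∀ j, 0 < ((L - 2 + j).choose j : ℝ) := by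
    intro j
    have := Nat.choose_pos (show j ≤ L - 2 + j by omega)
    positivity
  have hT0 : T 0 = 1 := by simp [hT]
  have hTbig : ∀ j, a < j → T j = 0 := by
    intro j hj
    simp only [hT]
    rw [Nat.choose_eq_zero_of_lt hj]; simp
  -- recurrence
  have hrec : ∀ j : ℕ, ((j : ℝ) + 1) * ((L : ℝ) - 1 + j) * T (j + 1) =
      ((a : ℝ) - j) * ((t : ℝ) + 1 - j) * T j := by
    intro j
    have g1 : (a.choose (j + 1) : ℝ) * ((j : ℝ) + 1) = (a.choose j : ℝ) * ((a : ℝ) - j) := by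
      rcases Nat.lt_or_ge a j with h | h
      · rw [Nat.choose_eq_zero_of_lt h, Nat.choose_eq_zero_of_lt (by omega)]; simp
      · have h' := Nat.choose_succ_right_eq a j
        have h'' : (a.choose (j + 1) : ℝ) * ((j + 1 : ℕ) : ℝ) = (a.choose j : ℝ) * ((a - j : ℕ) : ℝ) := by
          exact_mod_cast h'
        rw [Nat.cast_sub h] at h''
        push_cast at h''; exact h''
    have g2 : ((t + 1).choose (j + 1) : ℝ) * ((j : ℝ) + 1) =
        ((t + 1).choose j : ℝ) * ((t : ℝ) + 1 - j) := by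
      rcases Nat.lt_or_ge (t + 1) j with h | h
      · rw [Nat.choose_eq_zero_of_lt h, Nat.choose_eq_zero_of_lt (by omega)]; simp
      · have h' := Nat.choose_succ_right_eq (t + 1) j
        have h'' : ((t + 1).choose (j + 1) : ℝ) * ((j + 1 : ℕ) : ℝ) =
          ((t + 1).choose j : ℝ) * ((t + 1 - j : ℕ) : ℝ) := by
          exact_mod_cast h'
        rw [Nat.cast_sub h] at h''
        push_cast at h''; exact h''
    have g3 : ((L - 2 + (j + 1)).choose (j + 1) : ℝ) * ((j : ℝ) + 1) =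
        ((L : ℝ) - 1 + j) * ((L - 2 + j).choose j : ℝ) := by
      have h' := Nat.add_one_mul_choose_eq (L - 2 + j) j
      have h'' : ((L - 2 + j + 1 : ℕ) : ℝ) * ((L - 2 + j).choose j : ℝ) =
        ((L - 2 + j + 1).choose (j + 1) : ℝ) * ((j + 1 : ℕ) : ℝ) := by exact_mod_cast h'
      push_cast [Nat.cast_sub hL] at h''
      rw [show L - 2 + (j + 1) = L - 2 + j + 1 by ring]
      linarith
    have hj1 : (0:ℝ) < (j : ℝ) + 1 := by positivity
    have hLj : (0:ℝ) < (L : ℝ) - 1 + j := by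
      have : (2 : ℝ) ≤ L := by exact_mod_cast hL
      have : (0:ℝ) ≤ j := by positivity
      linarith
    have k1 : (a.choose (j + 1) : ℝ) = (a.choose j : ℝ) * ((a : ℝ) - j) / ((j : ℝ) + 1) := by
      rw [eq_div_iff hj1.ne']; exact g1
    have k2 : ((t + 1).choose (j + 1) : ℝ) =
        ((t + 1).choose j : ℝ) * ((t : ℝ) + 1 - j) / ((j : ℝ) + 1) := by
      rw [eq_div_iff hj1.ne']; exact g2
    have k3 : ((L - 2 + (j + 1)).choose (j + 1) : ℝ) =
        ((L : ℝ) - 1 + j) * ((L - 2 + j).choose j : ℝ) / ((j : ℝ) + 1) := by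
      rw [eq_div_iff hj1.ne']; exact g3
    simp only [hT]
    rw [k1, k2, k3]
    have := (hden j).ne'
    field_simp
  -- sums
  set A0 : ℝ := ∑ j ∈ range (a + 1), T j with hA0
  set A1 : ℝ := ∑ j ∈ range (a + 1), (j : ℝ) * T j with hA1
  have hA0nn : 0 ≤ A0 := sum_nonneg fun j _ => hTnn j
  have hkey : ((L : ℝ) + t + a - 1) * A1 = (a : ℝ) * (t + 1) * A0 := by
    have h1 : ∑ j ∈ range (a + 1), ((j : ℝ) + 1) * ((L : ℝ) - 1 + j) * T (j + 1) =
        ∑ j ∈ range (a + 1), ((a : ℝ) - j) * ((t : ℝ) + 1 - j) * T j :=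
      sum_congr rfl fun j _ => hrec j
    have h2 : ∑ j ∈ range (a + 1), ((j : ℝ) + 1) * ((L : ℝ) - 1 + j) * T (j + 1) =
        ∑ j ∈ range (a + 1), (j : ℝ) * ((L : ℝ) - 2 + j) * T j := by
      have h3 := sum_range_succ' (fun j : ℕ => (j : ℝ) * ((L : ℝ) - 2 + j) * T j) (a + 1)
      have h4 := sum_range_succ (fun j : ℕ => (j : ℝ) * ((L : ℝ) - 2 + j) * T j) (a + 1)
      rw [hTbig (a + 1) (by omega)] at h4
      simp only [mul_zero, add_zero, Nat.cast_zero, zero_mul] at h3 h4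
      rw [← h4, h3]
      refine sum_congr rfl fun j _ => ?_
      push_cast; ring
    rw [h2] at h1
    have h5 : ∑ j ∈ range (a + 1), ((j : ℝ) * ((L : ℝ) - 2 + j) * T j -
        ((a : ℝ) - j) * ((t : ℝ) + 1 - j) * T j) = 0 := by
      rw [sum_sub_distrib, h1, sub_self]
    have h6 : ∑ j ∈ range (a + 1), ((j : ℝ) * ((L : ℝ) - 2 + j) * T j -
        ((a : ℝ) - j) * ((t : ℝ) + 1 - j) * T j) =
        ((L : ℝ) + t + a - 1) * A1 - (a : ℝ) * (t + 1) * A0 := by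
      rw [hA0, hA1, mul_sum, mul_sum, ← sum_sub_distrib]
      refine sum_congr rfl fun j _ => ?_
      ring
    linarith
  have hS1 : Ssum a (t + 1) L 1 = A1 - A0 + 1 := by
    unfold Ssum
    have h1 : ∀ l ∈ range (a + 1), ((1 + l).choose l : ℝ) * (a.choose (1 + 1 + l) : ℝ) *
        ((t + 1).choose (1 + 1 + l) : ℝ) / ((L + l).choose (1 + 1 + l) : ℝ) =
        ((l : ℝ) + 1) * T (l + 2) := by
      intro l _
      simp only [hT]
      rw [show L - 2 + (l + 2) = L + l by omega, show 1 + 1 + l = l + 2 by ring]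
      have : (1 + l).choose l = l + 1 := by
        rw [add_comm 1 l, Nat.choose_succ_self_right]
      rw [this]
      push_cast; ring
    rw [sum_congr rfl h1]
    have h2 : ∑ j ∈ range (a + 1 + 2), ((j : ℝ) - 1) * T j = A1 - A0 := by
      rw [sum_range_succ, sum_range_succ, hTbig (a + 1) (by omega), hTbig (a + 1 + 1) (by omega)]
      rw [hA0, hA1, ← sum_sub_distrib]
      simp only [mul_zero, add_zero]
      refine sum_congr rfl fun j _ => ?_
      ring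
    rw [sum_range_succ', sum_range_succ'] at h2
    have h3 : ∑ k ∈ range (a + 1), (((k + 1 + 1 : ℕ) : ℝ) - 1) * T (k + 1 + 1) =
        ∑ l ∈ range (a + 1), ((l : ℝ) + 1) * T (l + 2) := by
      refine sum_congr rfl fun j _ => ?_
      push_cast; ring
    rw [h3] at h2
    simp only [zero_add, Nat.cast_one, sub_self, zero_mul, add_zero, Nat.cast_zero, zero_sub, hT0]
      at h2
    linarith
  have hS2 : (a : ℝ) * Ssum (a - 1) (t + 1) (L - 1) 0 = a * A0 - A1 - a := by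
    unfold Ssum
    rw [mul_sum]
    have h1 : ∀ l ∈ range (a - 1 + 1), (a : ℝ) * (((0 + l).choose l : ℝ) *
        ((a - 1).choose (0 + 1 + l) : ℝ) *
        ((t + 1).choose (0 + 1 + l) : ℝ) / ((L - 1 + l).choose (0 + 1 + l) : ℝ)) =
        ((a : ℝ) - (l + 1)) * T (l + 1) := by
      intro l _
      simp only [hT]
      rw [show L - 2 + (l + 1) = L - 1 + l by omega, show 0 + 1 + l = l + 1 by ring, zero_add,
        Nat.choose_self]
      have g1 : (a : ℝ) * ((a - 1).choose (l + 1) : ℝ) = ((a : ℝ) - (l + 1)) * (a.choose (l + 1) : ℝ) := by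
        obtain ⟨b, rfl⟩ : ∃ b, a = b + 1 := ⟨a - 1, by omega⟩
        rw [Nat.add_sub_cancel]
        rcases Nat.lt_or_ge (b + 1) (l + 1) with h | h
        · rw [Nat.choose_eq_zero_of_lt h, Nat.choose_eq_zero_of_lt (by omega)]; simp
        · have h' := Nat.choose_mul_succ_eq b (l + 1)
          have h'' : (b.choose (l + 1) : ℝ) * ((b + 1 : ℕ) : ℝ) =
            ((b + 1).choose (l + 1) : ℝ) * ((b + 1 - (l + 1) : ℕ) : ℝ) := by exact_mod_cast h'
          rw [Nat.cast_sub h] at h''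
          push_cast at h'' ⊢
          linarith
      rw [Nat.cast_one, one_mul]
      calc (a : ℝ) * (((a - 1).choose (l + 1) : ℝ) * ((t + 1).choose (l + 1) : ℝ) /
            ((L - 1 + l).choose (l + 1) : ℝ)) = ((a : ℝ) * ((a - 1).choose (l + 1) : ℝ)) *
            ((t + 1).choose (l + 1) : ℝ) / ((L - 1 + l).choose (l + 1) : ℝ) := by ring
        _ = _ := by rw [g1]; ring
    rw [sum_congr rfl h1]
    have h2 : ∑ j ∈ range (a + 1), ((a : ℝ) - j) * T j = a * A0 - A1 := by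
      rw [hA0, hA1, mul_sum, ← sum_sub_distrib]
      refine sum_congr rfl fun j _ => ?_
      ring
    rw [sum_range_succ'] at h2
    rw [show a - 1 + 1 = a by omega]
    have h3 : ∑ k ∈ range a, ((a : ℝ) - ((k + 1 : ℕ) : ℝ)) * T (k + 1) =
        ∑ l ∈ range a, ((a : ℝ) - (l + 1)) * T (l + 1) := by
      refine sum_congr rfl fun j _ => ?_
      push_cast; ring
    rw [h3, hT0] at h2
    simp only [Nat.cast_zero, sub_zero, mul_one] at h2
    linarith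
  rw [hS1, hS2]
  nlinarith [hkey, hA0nn, hN]

/-- the main inequality -/
lemma main_ineq (a t L ρ : ℕ) (hρ : 1 ≤ ρ) (hρa : ρ + 1 ≤ a) (hN : (t + 1) * a ≤ L + t) :
    ((L : ℝ) + t + a) * Ssum a (t + ρ) L ρ + a * Ssum (a - 1) (t + ρ) (L - 1) (ρ - 1) ≤
      (L : ℝ) + t := by
  have ha1 : 1 ≤ a := by omega
  have hLa : t * (a - 1) + a ≤ L := by
    obtain ⟨b, rfl⟩ : ∃ b, a = b + 1 := ⟨a - 1, by omega⟩
    rw [Nat.add_sub_cancel]
    nlinarith
  have hLa' : a ≤ L := le_trans (Nat.le_add_left _ _) hLa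
  have hbase := base_ineq a t L ha1 (by omega) (by exact_mod_cast hN)
  have key : ∀ σ : ℕ, σ + 2 ≤ a → Ssum a (t + (σ + 1)) L (σ + 1) ≤ Ssum a (t + 1) L 1 ∧
      Ssum (a - 1) (t + (σ + 1)) (L - 1) σ ≤ Ssum (a - 1) (t + 1) (L - 1) 0 := by
    intro σ
    induction σ with
    | zero => intro _; exact ⟨le_rfl, le_rfl⟩
    | succ σ ih =>
      intro h
      obtain ⟨ih1, ih2⟩ := ih (by omega)
      have hLr : (t : ℝ) * ((a : ℝ) - 1) + a ≤ L := by
        have : ((t * (a - 1) + a : ℕ) : ℝ) ≤ L := by exact_mod_cast hLa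
        push_cast [Nat.cast_sub ha1] at this
        exact this
      have haσ : (σ : ℝ) + 3 ≤ a := by
        have : ((σ + 1 + 2 : ℕ) : ℝ) ≤ a := by exact_mod_cast h
        push_cast at this; linarith
      have ht0 : (0 : ℝ) ≤ t := by positivity
      have hσ0 : (0 : ℝ) ≤ σ := by positivity
      constructor
      · have := Ssum_mono a t L (σ + 1) (by omega) (by
          push_cast
          -- (a - (σ+2)) (t+σ+1) ≤ (σ+2)(L-(σ+2))
          have h1 : ((t : ℝ) + 1) * ((a : ℝ) - (σ + 2)) ≤ (L : ℝ) - (σ + 2) := by nlinarith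
          have h2 : (0 : ℝ) ≤ (a : ℝ) - (σ + 2) := by linarith
          have h3 : (t : ℝ) + (σ + 1) ≤ (σ + 2) * ((t : ℝ) + 1) := by nlinarith
          calc ((a : ℝ) - (σ + 1 + 1)) * (t + (σ + 1)) = ((a : ℝ) - (σ + 2)) * (t + (σ + 1)) := by ring
            _ ≤ ((a : ℝ) - (σ + 2)) * ((σ + 2) * ((t : ℝ) + 1)) := by gcongr
            _ = (σ + 2) * (((t : ℝ) + 1) * ((a : ℝ) - (σ + 2))) := by ring
            _ ≤ (σ + 2) * ((L : ℝ) - (σ + 2)) := by gcongr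
            _ = _ := by ring)
        have e : t + (σ + 1) + 1 = t + (σ + 1 + 1) := by ring
        rw [e] at this
        exact this.trans ih1
      · have := Ssum_mono (a - 1) (t + 1) (L - 1) σ (by omega) (by
          push_cast [Nat.cast_sub ha1, Nat.cast_sub (show 1 ≤ L by omega)]
          have h1 : ((t : ℝ) + 1) * ((a : ℝ) - (σ + 2)) ≤ (L : ℝ) - (σ + 2) := by nlinarith
          have h2 : (0 : ℝ) ≤ (a : ℝ) - (σ + 2) := by linarith
          have h3 : (t : ℝ) + 1 + σ ≤ (σ + 1) * ((t : ℝ) + 1) := by nlinarith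
          calc ((a : ℝ) - 1 - (σ + 1)) * (t + 1 + σ) = ((a : ℝ) - (σ + 2)) * (t + 1 + σ) := by ring
            _ ≤ ((a : ℝ) - (σ + 2)) * ((σ + 1) * ((t : ℝ) + 1)) := by gcongr
            _ = (σ + 1) * (((t : ℝ) + 1) * ((a : ℝ) - (σ + 2))) := by ring
            _ ≤ (σ + 1) * ((L : ℝ) - (σ + 2)) := by gcongr
            _ = _ := by ring)
        have e : t + 1 + σ + 1 = t + (σ + 1 + 1) := by ring
        have e2 : t + 1 + σ = t + (σ + 1) := by ring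
        rw [e, e2] at this
        exact this.trans ih2
  obtain ⟨σ, rfl⟩ : ∃ σ, ρ = σ + 1 := ⟨ρ - 1, by omega⟩
  obtain ⟨k1, k2⟩ := key σ (by omega)
  rw [Nat.add_sub_cancel]
  have hpos : (0 : ℝ) ≤ (L : ℝ) + t + a := by positivity
  have hapos : (0 : ℝ) ≤ (a : ℝ) := by positivity
  calc _ ≤ ((L : ℝ) + t + a) * Ssum a (t + 1) L 1 + a * Ssum (a - 1) (t + 1) (L - 1) 0 := by
        gcongr
    _ ≤ _ := hbase

end Pool.Agent.Helper93.EKR
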