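import Mathlib
import Pool.Agent.Helper93.EKR2

open Finset

namespace Pool.Agent.Helper93.EKR

variable {n : ℕ}

/-- `lift e h A = ∑_{E ⊆ A, |E| = e} h E` -/
noncomputable def lift (e : ℕ) (h : Finset (Fin n) → ℝ) (A : Finset (Fin n)) : ℝ :=
  ∑ E ∈ powersetCard e A, h E

/-- harmonic functions on `e`-sets -/
def Harm (e : ℕ) (h : Finset (Fin n) → ℝ) : Prop :=
  ∀ T : Finset (Fin n), T.card < e →
    ∑ E ∈ (powersetCard e (univ : Finset (Fin n))).filter (fun E => T ⊆ E), h E = 0

lemma powersetCard_eq_filter_sub (e : ℕ) {A X : Finset (Fin n)} (hAX : A ⊆ X) :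
    powersetCard e A = (powersetCard e X).filter (fun E => E ⊆ A) := by
  ext E
  simp only [mem_powersetCard, mem_filter]
  constructor
  · rintro ⟨h1, h2⟩; exact ⟨⟨h1.trans hAX, h2⟩, h1⟩
  · rintro ⟨⟨_, h2⟩, h3⟩; exact ⟨h3, h2⟩

lemma lift_lift (e k : ℕ) (hek : e ≤ k) (h : Finset (Fin n) → ℝ) (X : Finset (Fin n)) :
    ∑ A ∈ powersetCard k X, lift e h A = ((X.card - e).choose (k - e) : ℝ) * lift e h X := by
  have h1 : ∀ A ∈ powersetCard k X, lift e h A =
      ∑ E ∈ powersetCard e X, if E ⊆ A then h E else 0 := by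
    intro A hA
    rw [mem_powersetCard] at hA
    rw [lift, powersetCard_eq_filter_sub e hA.1, sum_filter]
  rw [sum_congr rfl h1, sum_comm, lift, mul_sum]
  refine sum_congr rfl fun E hE => ?_
  rw [mem_powersetCard] at hE
  rw [← sum_filter, sum_const, nsmul_eq_mul,
    card_filter_powersetCard_subset E X k hE.1 (by rw [hE.2]; exact hek), hE.2]

lemma lift_compl (e : ℕ) (h : Finset (Fin n) → ℝ) (hh : Harm e h) (S : Finset (Fin n)) :
    lift e h Sᶜ = (-1 : ℝ) ^ e * lift e h S := by
  classical
  have h1 : lift e h Sᶜ = ∑ E ∈ powersetCard e (univ : Finset (Fin n)),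
      ∑ T ∈ S.powerset, if T ⊆ E then (-1 : ℝ) ^ T.card * h E else 0 := by
    rw [lift, powersetCard_eq_filter_sub e (subset_univ Sᶜ), sum_filter]
    refine sum_congr rfl fun E _ => ?_
    have h2 : ∑ T ∈ (E ∩ S).powerset, (-1 : ℝ) ^ T.card = if E ∩ S = ∅ then 1 else 0 := by
      have := sum_powerset_neg_one_pow_card (x := E ∩ S)
      exact_mod_cast this
    have h3 : ∑ T ∈ S.powerset, (if T ⊆ E then (-1 : ℝ) ^ T.card * h E else 0) =
        (∑ T ∈ (E ∩ S).powerset, (-1 : ℝ) ^ T.card) * h E := by
      rw [sum_mul, ← sum_filter]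
      apply sum_congr _ (fun _ _ => rfl)
      ext T
      simp only [mem_filter, mem_powerset, subset_inter_iff]
      tauto
    rw [h3, h2]
    by_cases hES : E ∩ S = ∅
    · have : E ⊆ Sᶜ := by
        intro x hx
        rw [mem_compl]
        intro hxS
        have : x ∈ E ∩ S := mem_inter.2 ⟨hx, hxS⟩
        rw [hES] at this
        exact absurd this (notMem_empty x)
      rw [if_pos this, if_pos hES, one_mul]
    · have : ¬ E ⊆ Sᶜ := by
        intro hsub
        apply hES
        rw [eq_empty_iff_forall_notMem]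
        intro x hx
        rw [mem_inter] at hx
        have := hsub hx.1
        rw [mem_compl] at this
        exact this hx.2
      rw [if_neg this, if_neg hES, zero_mul]
  rw [h1, sum_comm]
  have h2 : ∀ T ∈ S.powerset, (∑ E ∈ powersetCard e (univ : Finset (Fin n)),
      if T ⊆ E then (-1 : ℝ) ^ T.card * h E else 0) =
      if T.card = e then (-1 : ℝ) ^ e * h T else 0 := by
    intro T _
    rw [← sum_filter, ← mul_sum]
    rcases lt_trichotomy T.card e with hlt | heq | hgt
    · rw [hh T hlt, if_neg hlt.ne, mul_zero]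
    · rw [if_pos heq]
      have : (powersetCard e (univ : Finset (Fin n))).filter (fun E => T ⊆ E) = {T} := by
        ext E
        simp only [mem_filter, mem_powersetCard, subset_univ, true_and, mem_singleton]
        constructor
        · rintro ⟨h3, h4⟩
          exact (eq_of_subset_of_card_le h4 (by rw [h3, heq])).symm
        · rintro rfl
          exact ⟨heq, Subset.rfl⟩
      rw [this, sum_singleton, heq]
    · rw [if_neg hgt.ne']
      have : (powersetCard e (univ : Finset (Fin n))).filter (fun E => T ⊆ E) = ∅ := by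
        rw [filter_eq_empty_iff]
        intro E hE hTE
        rw [mem_powersetCard] at hE
        have := card_le_card hTE
        omega
      rw [this, sum_empty, mul_zero]
  rw [sum_congr rfl h2, ← sum_filter, lift, mul_sum]
  apply sum_congr _ (fun _ _ => rfl)
  ext T
  simp only [mem_filter, mem_powerset, mem_powersetCard]

/-- counting form of `C(|A \ B|, j)` -/
lemma choose_sdiff (j : ℕ) (A B : Finset (Fin n)) :
    (((A \ B).card).choose j : ℝ) = ∑ S ∈ powersetCard j A, if B ⊆ Sᶜ then (1 : ℝ) else 0 := by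
  rw [← card_powersetCard, ← sum_filter, sum_const, nsmul_eq_mul, mul_one]
  congr 2
  ext S
  simp only [mem_powersetCard, mem_filter]
  constructor
  · rintro ⟨h1, h2⟩
    refine ⟨⟨h1.trans sdiff_subset, h2⟩, ?_⟩
    intro x hx
    rw [mem_compl]
    intro hxS
    exact (mem_sdiff.1 (h1 hxS)).2 hx
  · rintro ⟨⟨h1, h2⟩, h3⟩
    refine ⟨?_, h2⟩
    intro x hx
    rw [mem_sdiff]
    refine ⟨h1 hx, fun hxB => ?_⟩
    have := h3 hxB
    rw [mem_compl] at this
    exact this hx

lemma card_compl' (S : Finset (Fin n)) : Sᶜ.card = n - S.card := by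
  rw [card_compl, Fintype.card_fin]

/-- eigenvalues of the matrices `C(|A \ B|, j)` -/
lemma eig_choose (k e j : ℕ) (hek : e ≤ k) (hjk : j ≤ k) (h : Finset (Fin n) → ℝ) (hh : Harm e h)
    (A : Finset (Fin n)) (hA : A ∈ powersetCard k (univ : Finset (Fin n))) :
    ∑ B ∈ powersetCard k (univ : Finset (Fin n)), (((A \ B).card).choose j : ℝ) * lift e h B =
      (-1 : ℝ) ^ e * ((n - j - e).choose (k - e) : ℝ) * ((k - e).choose (k - j) : ℝ) *
        lift e h A := by
  rw [mem_powersetCard] at hA
  have h1 : ∀ B ∈ powersetCard k (univ : Finset (Fin n)),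
      (((A \ B).card).choose j : ℝ) * lift e h B =
      ∑ S ∈ powersetCard j A, if B ⊆ Sᶜ then lift e h B else 0 := by
    intro B _
    rw [choose_sdiff, sum_mul]
    refine sum_congr rfl fun S _ => ?_
    split_ifs <;> simp
  rw [sum_congr rfl h1, sum_comm]
  have h2 : ∀ S ∈ powersetCard j A, (∑ B ∈ powersetCard k (univ : Finset (Fin n)),
      if B ⊆ Sᶜ then lift e h B else 0) =
      (-1 : ℝ) ^ e * ((n - j - e).choose (k - e) : ℝ) * lift e h S := by
    intro S hS
    rw [mem_powersetCard] at hS
    rw [← sum_filter, ← powersetCard_eq_filter_sub k (subset_univ Sᶜ), lift_lift e k hek,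
      lift_compl e h hh, card_compl', hS.2]
    ring
  rw [sum_congr rfl h2, ← mul_sum]
  rcases Nat.lt_or_ge j e with hje | hje
  · have h3 : ∀ S ∈ powersetCard j A, lift e h S = 0 := by
      intro S hS
      rw [mem_powersetCard] at hS
      rw [lift, powersetCard_eq_empty.2 (by omega), sum_empty]
    rw [sum_eq_zero h3, Nat.choose_eq_zero_of_lt (show k - e < k - j by omega)]
    simp
  · rw [lift_lift e j hje, hA.2]
    have : (k - e).choose (j - e) = (k - e).choose (k - j) := by
      rw [← Nat.choose_symm (show k - j ≤ k - e by omega)]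
      congr 1
      omega
    rw [this]
    ring

/-- star sums of the matrices `C(|A \ B|, j)` -/
lemma star_choose (k t j : ℕ) (htk : t ≤ k) (T : Finset (Fin n)) (hT : T.card = t)
    (A : Finset (Fin n)) :
    ∑ B ∈ (powersetCard k (univ : Finset (Fin n))).filter (fun B => T ⊆ B),
      (((A \ B).card).choose j : ℝ) =
      (((A \ T).card).choose j : ℝ) * ((n - j - t).choose (k - t) : ℝ) := by
  have h1 : ∀ B ∈ (powersetCard k (univ : Finset (Fin n))).filter (fun B => T ⊆ B),
      (((A \ B).card).choose j : ℝ) =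
      ∑ S ∈ powersetCard j A, if B ⊆ Sᶜ then (1 : ℝ) else 0 := fun B _ => choose_sdiff j A B
  rw [sum_congr rfl h1, sum_comm]
  have h2 : ∀ S ∈ powersetCard j A,
      (∑ B ∈ (powersetCard k (univ : Finset (Fin n))).filter (fun B => T ⊆ B),
        if B ⊆ Sᶜ then (1 : ℝ) else 0) =
      (if T ⊆ Sᶜ then (1 : ℝ) else 0) * ((n - j - t).choose (k - t) : ℝ) := by
    intro S hS
    rw [mem_powersetCard] at hS
    have hcomm : ((powersetCard k (univ : Finset (Fin n))).filter (fun B => T ⊆ B)).filter
        (fun B => B ⊆ Sᶜ) = (powersetCard k Sᶜ).filter (fun B => T ⊆ B) := by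
      rw [powersetCard_eq_filter_sub k (subset_univ Sᶜ)]
      ext B
      simp only [mem_filter]
      tauto
    rw [← sum_filter, hcomm, sum_const, nsmul_eq_mul, mul_one]
    by_cases hTS : T ⊆ Sᶜ
    · rw [if_pos hTS, one_mul, card_filter_powersetCard_subset T Sᶜ k hTS (by omega), card_compl',
        hS.2, hT]
    · rw [if_neg hTS, zero_mul]
      have : (powersetCard k Sᶜ).filter (fun B => T ⊆ B) = ∅ := by
        rw [filter_eq_empty_iff]
        intro B hB hTB
        rw [mem_powersetCard] at hB
        exact hTS (hTB.trans hB.1)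
      rw [this, card_empty, Nat.cast_zero]
  rw [sum_congr rfl h2, ← sum_mul, ← choose_sdiff]

/-- The (scaled) Wilson matrices, as functions of `d = |A \ B|`. -/
noncomputable def om (N k a d : ℕ) : ℝ :=
  ((N + a).choose a : ℝ) * ((if d = 0 then 1 else 0) +
    ∑ s ∈ range k, (-1 : ℝ) ^ s * ((a + s).choose s : ℝ) / ((N - 1 - s).choose a : ℝ) *
      (d.choose (a + 1 + s) : ℝ))

lemma om_diag (N k a : ℕ) : om N k a 0 = ((N + a).choose a : ℝ) := by
  unfold om
  rw [if_pos rfl, sum_eq_zero]
  · ring
  · intro s _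
    rw [Nat.choose_eq_zero_of_lt (show 0 < a + 1 + s by omega)]
    simp

lemma om_eq_zero (N k a d : ℕ) (hd : 0 < d) (hda : d ≤ a) : om N k a d = 0 := by
  unfold om
  rw [if_neg hd.ne', sum_eq_zero]
  · ring
  · intro s _
    rw [Nat.choose_eq_zero_of_lt (show d < a + 1 + s by omega)]
    simp

lemma om_zero (N k d : ℕ) (hd : d ≤ k) : om N k 0 d = 1 := by
  unfold om
  have h1 : ∑ s ∈ range k, (-1 : ℝ) ^ s * ((0 + s).choose s : ℝ) / ((N - 1 - s).choose 0 : ℝ) *
      (d.choose (0 + 1 + s) : ℝ) =
      ∑ s ∈ range k, (-1 : ℝ) ^ s * ((0 + s).choose s : ℝ) * (d.choose (0 + 1 + s) : ℝ) := by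
    refine sum_congr rfl fun s _ => ?_
    rw [Nat.choose_zero_right]
    simp
  rw [h1, alt_alpha 0 k d (Nat.zero_le _) (by omega)]
  by_cases h : d = 0
  · simp [h]
  · simp [h]

lemma sum_filter_single {K : Finset (Finset (Fin n))} (A T : Finset (Fin n)) (hA : A ∈ K) :
    ∑ B ∈ K.filter (fun B => T ⊆ B), (if A = B then (1:ℝ) else 0) =
      if T ⊆ A then 1 else 0 := by
  rw [sum_filter]
  rw [sum_eq_single A]
  · simp
  · intro B _ hB
    rw [if_neg (Ne.symm hB)]
    simp
  · intro h; exact absurd hA h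

lemma sdiff_card_zero_iff {k : ℕ} {A B : Finset (Fin n)}
    (hA : A ∈ powersetCard k (univ : Finset (Fin n)))
    (hB : B ∈ powersetCard k (univ : Finset (Fin n))) : (A \ B).card = 0 ↔ A = B := by
  rw [mem_powersetCard] at hA hB
  rw [card_eq_zero, sdiff_eq_empty_iff_subset]
  constructor
  · intro h
    exact eq_of_subset_of_card_le h (by omega)
  · rintro rfl
    exact Subset.rfl

/-- star sums of the Wilson matrices -/
lemma om_star (N k t a : ℕ) (hk : k = t + a) (hn : n = N + k) (hN : t + a ≤ N)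
    (T : Finset (Fin n)) (hT : T.card = t) (A : Finset (Fin n))
    (hA : A ∈ powersetCard k (univ : Finset (Fin n))) :
    ∑ B ∈ (powersetCard k (univ : Finset (Fin n))).filter (fun B => T ⊆ B),
      om N k a (A \ B).card = ((N + a).choose a : ℝ) := by
  have hAc : A.card = k := (mem_powersetCard.1 hA).2
  unfold om
  rw [← mul_sum, sum_add_distrib, sum_comm]
  have h1 : ∑ B ∈ (powersetCard k (univ : Finset (Fin n))).filter (fun B => T ⊆ B),
      (if (A \ B).card = 0 then (1:ℝ) else 0) = if T ⊆ A then 1 else 0 := by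
    rw [← sum_filter_single A T hA]
    refine sum_congr rfl fun B hB => ?_
    rw [mem_filter] at hB
    by_cases hAB : A = B
    · rw [if_pos hAB, if_pos ((sdiff_card_zero_iff hA hB.1).2 hAB)]
    · rw [if_neg hAB, if_neg (fun h => hAB ((sdiff_card_zero_iff hA hB.1).1 h))]
  have hATle : a ≤ (A \ T).card := by
    have := le_card_sdiff T A
    omega
  have hATk : (A \ T).card ≤ k := by
    rw [← hAc]; exact card_le_card sdiff_subset
  have h2 : ∀ s ∈ range k, (∑ B ∈ (powersetCard k (univ : Finset (Fin n))).filter (fun B => T ⊆ B),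
      (-1 : ℝ) ^ s * ((a + s).choose s : ℝ) / ((N - 1 - s).choose a : ℝ) *
      (((A \ B).card).choose (a + 1 + s) : ℝ)) =
      (-1 : ℝ) ^ s * ((a + s).choose s : ℝ) * (((A \ T).card).choose (a + 1 + s) : ℝ) := by
    intro s _
    rw [← mul_sum, star_choose k t (a + 1 + s) (by omega) T hT A]
    rcases Nat.lt_or_ge s t with hs | hs
    · have e1 : n - (a + 1 + s) - t = N - 1 - s := by omega
      have e2 : k - t = a := by omega
      rw [e1, e2]
      have hpos : ((N - 1 - s).choose a : ℝ) ≠ 0 := by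
        have := Nat.choose_pos (show a ≤ N - 1 - s by omega)
        positivity
      field_simp
    · rw [Nat.choose_eq_zero_of_lt (show (A \ T).card < a + 1 + s by omega)]
      simp
  rw [h1, sum_congr rfl h2, alt_alpha a k _ hATle (by omega)]
  have hTA : T ⊆ A ↔ (A \ T).card = a := by
    constructor
    · intro h
      rw [card_sdiff_of_subset h]; omega
    · intro h
      have h3 := card_sdiff_add_card_inter A T
      have h4 : (A ∩ T).card = T.card := by omega
      have h5 : A ∩ T = T := eq_of_subset_of_card_le inter_subset_right (by omega)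
      rw [← h5]; exact inter_subset_left
  by_cases hc : T ⊆ A
  · rw [if_pos hc, if_pos (hTA.1 hc)]; ring
  · rw [if_neg hc, if_neg (fun h => hc (hTA.2 h))]; ring

/-- action of the Wilson matrix on lifts of low degree -/
lemma om_lift_low (N k t a e : ℕ) (hk : k = t + a) (hn : n = N + k) (hN : t + a ≤ N) (het : e ≤ t)
    (h : Finset (Fin n) → ℝ) (A : Finset (Fin n))
    (hA : A ∈ powersetCard k (univ : Finset (Fin n))) :
    ∑ B ∈ powersetCard k (univ : Finset (Fin n)), om N k a (A \ B).card * lift e h B =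
      ((n - e).choose (k - e) : ℝ) * lift e h univ := by
  have hpos : ((k - e).choose (t - e) : ℝ) ≠ 0 := by
    have := Nat.choose_pos (show t - e ≤ k - e by omega)
    positivity
  -- express lift e h B through t-sets
  have h1 : ∀ B ∈ powersetCard k (univ : Finset (Fin n)), om N k a (A \ B).card * lift e h B =
      (1 / ((k - e).choose (t - e) : ℝ)) * ∑ T ∈ powersetCard t (univ : Finset (Fin n)),
        if T ⊆ B then om N k a (A \ B).card * lift e h T else 0 := by
    intro B hB
    rw [mem_powersetCard] at hB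
    have h2 := lift_lift e t het h B
    rw [hB.2, powersetCard_eq_filter_sub t (subset_univ B), sum_filter] at h2
    have h3 : ∑ T ∈ powersetCard t (univ : Finset (Fin n)),
        (if T ⊆ B then om N k a (A \ B).card * lift e h T else 0) =
        om N k a (A \ B).card * ∑ T ∈ powersetCard t (univ : Finset (Fin n)),
          (if T ⊆ B then lift e h T else 0) := by
      rw [mul_sum]
      refine sum_congr rfl fun T _ => ?_
      split_ifs <;> simp
    rw [h3, h2]
    field_simp
  rw [sum_congr rfl h1, ← mul_sum, sum_comm]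
  have h4 : ∀ T ∈ powersetCard t (univ : Finset (Fin n)),
      (∑ B ∈ powersetCard k (univ : Finset (Fin n)),
        if T ⊆ B then om N k a (A \ B).card * lift e h T else 0) =
      ((N + a).choose a : ℝ) * lift e h T := by
    intro T hT
    rw [mem_powersetCard] at hT
    rw [← sum_filter, ← sum_mul, om_star N k t a hk hn hN T hT.2 A hA]
  rw [sum_congr rfl h4, ← mul_sum, lift_lift e t het h univ, card_univ, Fintype.card_fin]
  have h5 : (n - e).choose (k - e) * (k - e).choose (t - e) =
      (n - e).choose (t - e) * (N + a).choose a := by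
    have := Nat.choose_mul (n := n - e) (k := k - e) (s := t - e) (by omega)
    rw [this, show n - e - (t - e) = N + a by omega, show k - e - (t - e) = a by omega]
  have h6 : ((n - e).choose (k - e) : ℝ) * ((k - e).choose (t - e) : ℝ) =
      ((n - e).choose (t - e) : ℝ) * ((N + a).choose a : ℝ) := by exact_mod_cast h5
  have h7 : ((n - e).choose (k - e) : ℝ) = ((n - e).choose (t - e) : ℝ) * ((N + a).choose a : ℝ) /
      ((k - e).choose (t - e) : ℝ) := by rw [eq_div_iff hpos]; exact h6
  rw [h7]
  ring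

/-- eigenvalues of the Wilson matrix in high degree -/
lemma om_lift_high (N k t a ρ : ℕ) (hk : k = t + a) (hn : n = N + k) (hN : t + a ≤ N)
    (hρ : ρ + 1 ≤ a) (h : Finset (Fin n) → ℝ) (hh : Harm (t + ρ + 1) h) (A : Finset (Fin n))
    (hA : A ∈ powersetCard k (univ : Finset (Fin n))) :
    ∑ B ∈ powersetCard k (univ : Finset (Fin n)), om N k a (A \ B).card * lift (t + ρ + 1) h B =
      ((N + a).choose a : ℝ) * (1 + (-1 : ℝ) ^ ρ * Ssum a (t + ρ) (N - t) ρ) *
        lift (t + ρ + 1) h A := by
  have hAc : A.card = k := (mem_powersetCard.1 hA).2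
  set e := t + ρ + 1 with he
  unfold om
  have h1 : ∀ B ∈ powersetCard k (univ : Finset (Fin n)),
      ((N + a).choose a : ℝ) * ((if (A \ B).card = 0 then 1 else 0) +
      ∑ s ∈ range k, (-1 : ℝ) ^ s * ((a + s).choose s : ℝ) / ((N - 1 - s).choose a : ℝ) *
      (((A \ B).card).choose (a + 1 + s) : ℝ)) * lift e h B =
      ((N + a).choose a : ℝ) * ((if (A \ B).card = 0 then lift e h B else 0) +
      ∑ s ∈ range k, (-1 : ℝ) ^ s * ((a + s).choose s : ℝ) / ((N - 1 - s).choose a : ℝ) *
      ((((A \ B).card).choose (a + 1 + s) : ℝ) * lift e h B)) := by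
    intro B _
    rw [mul_assoc, add_mul, sum_mul]
    congr 2
    · split_ifs <;> simp
    · refine sum_congr rfl fun s _ => ?_
      ring
  rw [sum_congr rfl h1, ← mul_sum, sum_add_distrib, sum_comm]
  have h2 : ∑ B ∈ powersetCard k (univ : Finset (Fin n)),
      (if (A \ B).card = 0 then lift e h B else 0) = lift e h A := by
    rw [sum_eq_single A]
    · simp
    · intro B hB hBA
      rw [if_neg (fun hc => hBA ((sdiff_card_zero_iff hA hB).1 hc).symm)]
    · intro hc; exact absurd hA hc
  have h3 : ∀ s ∈ range k, (∑ B ∈ powersetCard k (univ : Finset (Fin n)),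
      (-1 : ℝ) ^ s * ((a + s).choose s : ℝ) / ((N - 1 - s).choose a : ℝ) *
      ((((A \ B).card).choose (a + 1 + s) : ℝ) * lift e h B)) =
      if s < t then ((-1 : ℝ) ^ s * ((a + s).choose s : ℝ) / ((N - 1 - s).choose a : ℝ) *
        ((-1 : ℝ) ^ e * ((n - (a + 1 + s) - e).choose (k - e) : ℝ) *
          ((k - e).choose (k - (a + 1 + s)) : ℝ))) * lift e h A else 0 := by
    intro s _
    rw [← mul_sum]
    by_cases hs : s < t
    · rw [if_pos hs, eig_choose k e (a + 1 + s) (by omega) (by omega) h hh A hA]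
      ring
    · rw [if_neg hs]
      have : ∀ B ∈ powersetCard k (univ : Finset (Fin n)),
          (((A \ B).card).choose (a + 1 + s) : ℝ) * lift e h B = 0 := by
        intro B _
        have : (A \ B).card ≤ k := by rw [← hAc]; exact card_le_card sdiff_subset
        rw [Nat.choose_eq_zero_of_lt (by omega)]
        simp
      rw [sum_eq_zero this, mul_zero]
  rw [h2, sum_congr rfl h3, ← sum_filter]
  have h4 : (range k).filter (fun s => s < t) = range t := by
    ext s; simp only [mem_filter, mem_range]; omega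
  rw [h4, ← sum_mul]
  -- reflect the sum
  have h5 : ∑ s ∈ range t, ((-1 : ℝ) ^ s * ((a + s).choose s : ℝ) / ((N - 1 - s).choose a : ℝ) *
        ((-1 : ℝ) ^ e * ((n - (a + 1 + s) - e).choose (k - e) : ℝ) *
          ((k - e).choose (k - (a + 1 + s)) : ℝ))) =
      (-1 : ℝ) ^ ρ * Ssum a (t + ρ) (N - t) ρ := by
    rw [← beta a t (N - t) ρ hρ (by omega), ← sum_range_reflect, mul_sum, mul_sum]
    refine sum_congr rfl fun i hi => ?_
    rw [mem_range] at hi
    have hsign : (-1 : ℝ) ^ (t - 1 - i) * (-1 : ℝ) ^ e = (-1 : ℝ) ^ ρ * (-1 : ℝ) ^ i := by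
      rw [← pow_add, ← pow_add]
      have : t - 1 - i + e + 2 * i = (ρ + i) + 2 * t := by omega
      have h6 : (-1 : ℝ) ^ (t - 1 - i + e) = (-1 : ℝ) ^ (t - 1 - i + e + 2 * i) := by
        rw [pow_add _ _ (2 * i), pow_mul]; simp
      rw [h6, this, pow_add, pow_mul]; simp
    have e1 : N - 1 - (t - 1 - i) = N - t + i := by omega
    have e2 : n - (a + 1 + (t - 1 - i)) - e = N - t + i - (ρ + 1) := by omega
    have e3 : k - e = a - (ρ + 1) := by omega
    have e4 : k - (a + 1 + (t - 1 - i)) = i := by omega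
    have e5 : (a + (t - 1 - i)).choose (t - 1 - i) = (t + a - 1 - i).choose a := by
      rw [show t + a - 1 - i = a + (t - 1 - i) by omega, Nat.choose_symm_add]
    rw [e1, e2, e3, e4, e5]
    have hmul := Nat.choose_mul (n := N - t + i) (k := a) (s := ρ + 1) hρ
    have hmul' : ((N - t + i).choose a : ℝ) * (a.choose (ρ + 1) : ℝ) =
      ((N - t + i).choose (ρ + 1) : ℝ) * ((N - t + i - (ρ + 1)).choose (a - (ρ + 1)) : ℝ) := by
      exact_mod_cast hmul
    have hp1 : ((N - t + i).choose a : ℝ) ≠ 0 := by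
      have := Nat.choose_pos (show a ≤ N - t + i by omega)
      positivity
    have hp2 : ((N - t + i).choose (ρ + 1) : ℝ) ≠ 0 := by
      have := Nat.choose_pos (show ρ + 1 ≤ N - t + i by omega)
      positivity
    have hq : ((N - t + i - (ρ + 1)).choose (a - (ρ + 1)) : ℝ) / ((N - t + i).choose a : ℝ) =
        (a.choose (ρ + 1) : ℝ) / ((N - t + i).choose (ρ + 1) : ℝ) := by
      rw [div_eq_div_iff hp1 hp2]; linarith
    calc (-1 : ℝ) ^ (t - 1 - i) * ((t + a - 1 - i).choose a : ℝ) / ((N - t + i).choose a : ℝ) *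
        ((-1 : ℝ) ^ e * ((N - t + i - (ρ + 1)).choose (a - (ρ + 1)) : ℝ) *
          ((a - (ρ + 1)).choose i : ℝ))
        = ((-1 : ℝ) ^ (t - 1 - i) * (-1 : ℝ) ^ e) * ((t + a - 1 - i).choose a : ℝ) *
          ((a - (ρ + 1)).choose i : ℝ) *
          (((N - t + i - (ρ + 1)).choose (a - (ρ + 1)) : ℝ) / ((N - t + i).choose a : ℝ)) := by
          ring
      _ = _ := by rw [hsign, hq]; ring
  rw [h5]
  ring

end Pool.Agent.Helper93.EKR
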