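import Mathlib
import Pool.Agent.Helper93.EKR3

open Finset

namespace Pool.Agent.Helper93.EKR

variable {n : ℕ}

lemma lift_univ_of_harm (e : ℕ) (he : 0 < e) (h : Finset (Fin n) → ℝ) (hh : Harm e h) :
    lift e h (univ : Finset (Fin n)) = 0 := by
  have := hh ∅ (by simpa using he)
  rw [lift]
  rw [filter_true_of_mem (fun E _ => empty_subset E)] at this
  exact this

/-- eigenvalues of the difference of consecutive Wilson matrices are nonnegative -/
lemma diff_eig (N k t a e : ℕ) (hk : k = t + a) (ha : 1 ≤ a) (hn : n = N + k)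
    (hN : (t + 1) * a ≤ N) (hek : e ≤ k) (h : Finset (Fin n) → ℝ) (hh : Harm e h) :
    ∃ d : ℝ, 0 ≤ d ∧ ∀ A ∈ powersetCard k (univ : Finset (Fin n)),
      ∑ B ∈ powersetCard k (univ : Finset (Fin n)),
        (om N k a (A \ B).card - om N k (a - 1) (A \ B).card) * lift e h B = d * lift e h A := by
  have hNta : t + a ≤ N := by nlinarith
  have hk' : k = (t + 1) + (a - 1) := by omega
  have hN' : (t + 1) + (a - 1) ≤ N := by omega
  have hsplit : ∀ A : Finset (Fin n), ∑ B ∈ powersetCard k (univ : Finset (Fin n)),
        (om N k a (A \ B).card - om N k (a - 1) (A \ B).card) * lift e h B =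
      ∑ B ∈ powersetCard k (univ : Finset (Fin n)), om N k a (A \ B).card * lift e h B -
      ∑ B ∈ powersetCard k (univ : Finset (Fin n)), om N k (a - 1) (A \ B).card * lift e h B := by
    intro A
    rw [← sum_sub_distrib]
    refine sum_congr rfl fun B _ => ?_
    ring
  rcases Nat.lt_or_ge t e with hte | hte
  swap
  · -- e ≤ t
    refine ⟨0, le_rfl, fun A hA => ?_⟩
    rw [hsplit, om_lift_low N k t a e hk hn hNta hte h A hA,
      om_lift_low N k (t + 1) (a - 1) e hk' hn hN' (by omega) h A hA]
    ring
  rcases Nat.lt_or_ge (t + 1) e with hte2 | hte2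
  · -- e ≥ t + 2
    obtain ⟨ρ, rfl⟩ : ∃ ρ, e = t + (ρ + 1) + 1 := ⟨e - t - 2, by omega⟩
    have hρa : ρ + 1 + 1 ≤ a := by omega
    set S1 := Ssum a (t + (ρ + 1)) (N - t) (ρ + 1) with hS1
    set S2 := Ssum (a - 1) (t + (ρ + 1)) (N - t - 1) (ρ + 1 - 1) with hS2
    refine ⟨((N + a).choose a : ℝ) * (1 + (-1 : ℝ) ^ (ρ + 1) * S1) -
      ((N + (a - 1)).choose (a - 1) : ℝ) * (1 + (-1 : ℝ) ^ ρ * S2), ?_, fun A hA => ?_⟩
    · have hmain := main_ineq a t (N - t) (ρ + 1) (by omega) hρa (by
        have : N - t + t = N := by omega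
        rw [this]; exact hN)
      rw [← hS1, ← hS2] at hmain
      have hcast : ((N - t : ℕ) : ℝ) + t = N := by
        rw [Nat.cast_sub (by omega)]; ring
      rw [hcast] at hmain
      have hS1n : 0 ≤ S1 := Ssum_nonneg _ _ _ _
      have hS2n : 0 ≤ S2 := Ssum_nonneg _ _ _ _
      have haR : (0 : ℝ) < a := by exact_mod_cast ha
      have hch : ((N + a).choose a : ℝ) = ((N + (a - 1)).choose (a - 1) : ℝ) * ((N : ℝ) + a) / a := by
        rw [eq_div_iff haR.ne']
        obtain ⟨b, rfl⟩ : ∃ b, a = b + 1 := ⟨a - 1, by omega⟩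
        rw [Nat.add_sub_cancel]
        have := Nat.add_one_mul_choose_eq (N + b) b
        have h' : ((N + b + 1 : ℕ) : ℝ) * ((N + b).choose b : ℝ) =
          ((N + b + 1).choose (b + 1) : ℝ) * ((b + 1 : ℕ) : ℝ) := by exact_mod_cast this
        rw [show N + (b + 1) = N + b + 1 by ring, ← h']
        push_cast; ring
      rw [hch]
      have hC : 0 ≤ ((N + (a - 1)).choose (a - 1) : ℝ) := by positivity
      have hrew : ((N + (a - 1)).choose (a - 1) : ℝ) * ((N : ℝ) + a) / a *
          (1 + (-1 : ℝ) ^ (ρ + 1) * S1) -
          ((N + (a - 1)).choose (a - 1) : ℝ) * (1 + (-1 : ℝ) ^ ρ * S2) =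
          ((N + (a - 1)).choose (a - 1) : ℝ) / a *
          ((N : ℝ) - (-1 : ℝ) ^ ρ * (((N : ℝ) + a) * S1 + a * S2)) := by
        rw [pow_succ]
        field_simp
        ring
      rw [hrew]
      apply mul_nonneg (by positivity)
      have hnn : 0 ≤ ((N : ℝ) + a) * S1 + a * S2 := by positivity
      rcases neg_one_pow_eq_or ℝ ρ with hs | hs
      · rw [hs]; linarith
      · rw [hs]
        have : (0 : ℝ) ≤ N := by positivity
        linarith
    · rw [hsplit]
      have e1 : t + (ρ + 1) + 1 = t + (ρ + 1) + 1 := rfl
      have key1 := om_lift_high N k t a (ρ + 1) hk hn hNta hρa h hh A hA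
      have hidx : t + (ρ + 1) + 1 = (t + 1) + ρ + 1 := by ring
      have hh2 : Harm ((t + 1) + ρ + 1) h := by rw [← hidx]; exact hh
      have key2 := om_lift_high N k (t + 1) (a - 1) ρ hk' hn hN' (by omega) h hh2 A hA
      rw [← hidx] at key2
      rw [key1, key2]
      have e2 : N - (t + 1) = N - t - 1 := by omega
      have e3 : t + 1 + ρ = t + (ρ + 1) := by ring
      rw [e2, e3, ← hS1]
      have e4 : Ssum (a - 1) (t + (ρ + 1)) (N - t - 1) ρ = S2 := by
        rw [hS2, Nat.add_sub_cancel]
      rw [e4]
      ring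
  · -- e = t + 1
    have he : e = t + 0 + 1 := by omega
    subst he
    refine ⟨((N + a).choose a : ℝ) * (1 + (-1 : ℝ) ^ 0 * Ssum a (t + 0) (N - t) 0), ?_,
      fun A hA => ?_⟩
    · have := Ssum_nonneg a (t + 0) (N - t) 0
      simp only [pow_zero, one_mul]
      positivity
    · rw [hsplit, om_lift_high N k t a 0 hk hn hNta (by omega) h hh A hA,
        om_lift_low N k (t + 1) (a - 1) (t + 0 + 1) hk' hn hN' (by omega) h A hA,
        lift_univ_of_harm _ (by omega) h hh]
      ring

/-- positivity of the difference of consecutive Wilson matrices -/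
lemma diff_psd (N k t a : ℕ) (hk : k = t + a) (ha : 1 ≤ a) (hn : n = N + k)
    (hN : (t + 1) * a ≤ N) (u : Finset (Fin n) → ℝ) :
    0 ≤ ∑ A ∈ powersetCard k (univ : Finset (Fin n)), ∑ B ∈ powersetCard k (univ : Finset (Fin n)),
      u A * (om N k a (A \ B).card - om N k (a - 1) (A \ B).card) * u B := by
  classical
  set K := powersetCard k (univ : Finset (Fin n)) with hK
  set D : Finset (Fin n) → Finset (Fin n) → ℝ := fun A B =>
    om N k a (A \ B).card - om N k (a - 1) (A \ B).card with hD
  set M : Matrix K K ℝ := Matrix.of (fun A B => D A.1 B.1) with hM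
  have hcard : ∀ A ∈ K, ∀ B ∈ K, (A \ B).card = (B \ A).card := by
    intro A hA B hB
    rw [hK, mem_powersetCard] at hA hB
    have h1 := card_sdiff_add_card_inter A B
    have h2 := card_sdiff_add_card_inter B A
    rw [inter_comm B A] at h2
    omega
  have hsymm : M.IsHermitian := by
    ext A B
    simp only [Matrix.conjTranspose_apply, star_trivial, hM, Matrix.of_apply, hD]
    rw [hcard B.1 B.2 A.1 A.2]
  have hsum : ∀ f : Finset (Fin n) → ℝ, ∑ A ∈ K, f A = ∑ A : K, f A.1 := by
    intro f
    exact (sum_coe_sort K f).symm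
  -- eigenvalues are nonnegative
  have hpsd : M.PosSemidef := by
    rw [hsymm.posSemidef_iff_eigenvalues_nonneg]
    intro j
    set v : K → ℝ := ⇑(hsymm.eigenvectorBasis j) with hv
    have hvne : v ≠ 0 := by
      intro h0
      apply hsymm.eigenvectorBasis.toBasis.ne_zero j
      ext x
      have := congrFun h0 x
      simpa [hv] using this
    have hev : M.mulVec v = hsymm.eigenvalues j • v := hsymm.mulVec_eigenvectorBasis j
    set μ := hsymm.eigenvalues j with hμ
    -- star sums
    set σ : Finset (Fin n) → ℝ := fun E => ∑ A : K, if E ⊆ A.1 then v A else 0 with hσ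
    have hex : ∃ e : ℕ, ∃ E : Finset (Fin n), E.card = e ∧ σ E ≠ 0 := by
      obtain ⟨A0, hA0⟩ := Function.ne_iff.1 hvne
      refine ⟨k, A0.1, (mem_powersetCard.1 A0.2).2, ?_⟩
      have : σ A0.1 = v A0 := by
        rw [hσ]
        simp only
        rw [sum_eq_single A0]
        · simp
        · intro B _ hB
          rw [if_neg]
          intro hsub
          apply hB
          apply Subtype.ext
          exact (eq_of_subset_of_card_le hsub (by
            rw [(mem_powersetCard.1 B.2).2, (mem_powersetCard.1 A0.2).2])).symm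
        · intro h; exact absurd (mem_univ _) h
      rw [this]; exact hA0
    classical
    set e := Nat.find hex with he
    obtain ⟨E0, hE0c, hE0⟩ := Nat.find_spec hex
    rw [← he] at hE0c
    have hmin : ∀ T : Finset (Fin n), T.card < e → σ T = 0 := by
      intro T hT
      by_contra hne
      exact Nat.find_min hex hT ⟨T, rfl, hne⟩
    have hek : e ≤ k := by
      by_contra hcon
      apply hE0
      rw [hσ]
      simp only
      apply sum_eq_zero
      intro A _
      rw [if_neg]
      intro hsub
      have := card_le_card hsub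
      rw [(mem_powersetCard.1 A.2).2] at this
      omega
    have hharm : Harm e σ := by
      intro T hT
      have h1 : ∑ E ∈ (powersetCard e (univ : Finset (Fin n))).filter (fun E => T ⊆ E), σ E =
          ∑ A : K, ∑ E ∈ (powersetCard e (univ : Finset (Fin n))).filter (fun E => T ⊆ E),
            if E ⊆ A.1 then v A else 0 := by
        rw [sum_comm]
      have h2 : ∀ A : K, (∑ E ∈ (powersetCard e (univ : Finset (Fin n))).filter (fun E => T ⊆ E),
            if E ⊆ A.1 then v A else 0) =
          ((k - T.card).choose (e - T.card) : ℝ) * (if T ⊆ A.1 then v A else 0) := by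
        intro A
        have hAc := (mem_powersetCard.1 A.2).2
        rw [← sum_filter, sum_const, nsmul_eq_mul]
        by_cases hTA : T ⊆ A.1
        · rw [if_pos hTA]
          congr 1
          have : ((powersetCard e (univ : Finset (Fin n))).filter (fun E => T ⊆ E)).filter
              (fun E => E ⊆ A.1) = (powersetCard e A.1).filter (fun E => T ⊆ E) := by
            rw [powersetCard_eq_filter_sub e (subset_univ A.1)]
            ext E; simp only [mem_filter]; tauto
          rw [this, card_filter_powersetCard_subset T A.1 e hTA hT.le, hAc]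
        · rw [if_neg hTA, mul_zero]
          have : ((powersetCard e (univ : Finset (Fin n))).filter (fun E => T ⊆ E)).filter
              (fun E => E ⊆ A.1) = ∅ := by
            rw [filter_eq_empty_iff]
            intro E hE hEA
            rw [mem_filter] at hE
            exact hTA (hE.2.trans hEA)
          rw [this, card_empty, Nat.cast_zero, zero_mul]
      rw [h1, sum_congr rfl (fun A _ => h2 A), ← mul_sum]
      have h3 : ∑ A : K, (if T ⊆ A.1 then v A else 0) = σ T := rfl
      rw [h3, hmin T hT, mul_zero]
    obtain ⟨d, hd, hdeig⟩ := diff_eig N k t a e hk ha hn hN hek σ hharm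
    -- pairing
    set g : K → ℝ := fun A => lift e σ A.1 with hg
    have hpair : ∑ A : K, v A * g A = ∑ E ∈ powersetCard e (univ : Finset (Fin n)), σ E ^ 2 := by
      have h1 : ∀ A : K, v A * g A =
          ∑ E ∈ powersetCard e (univ : Finset (Fin n)), σ E * (if E ⊆ A.1 then v A else 0) := by
        intro A
        rw [hg]
        simp only
        rw [lift, powersetCard_eq_filter_sub e (subset_univ A.1), sum_filter, mul_sum]
        refine sum_congr rfl fun E _ => ?_
        split_ifs
        · ring
        · simp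
      rw [sum_congr rfl (fun A _ => h1 A), sum_comm]
      refine sum_congr rfl fun E _ => ?_
      rw [← mul_sum, sq]
    have hpos : 0 < ∑ A : K, v A * g A := by
      rw [hpair]
      apply sum_pos'
      · intro E _; positivity
      · exact ⟨E0, mem_powersetCard.2 ⟨subset_univ _, hE0c⟩, by positivity⟩
    have hMg : M.mulVec g = d • g := by
      ext A
      have := hdeig A.1 A.2
      rw [← hK, hsum] at this
      exact this
    have h1 : ∑ A : K, (M.mulVec v) A * g A = ∑ A : K, v A * (M.mulVec g) A := by
      simp only [Matrix.mulVec, dotProduct, sum_mul, mul_sum]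
      rw [sum_comm]
      refine sum_congr rfl fun B _ => sum_congr rfl fun A _ => ?_
      have : M A B = M B A := by
        have := congrFun (congrFun hsymm B) A
        simpa [Matrix.conjTranspose_apply] using this
      rw [this]; ring
    rw [hev, hMg] at h1
    have h2 : ∑ A : K, (μ • v) A * g A = μ * ∑ A : K, v A * g A := by
      rw [mul_sum]
      refine sum_congr rfl fun A _ => ?_
      simp only [Pi.smul_apply, smul_eq_mul]; ring
    have h3 : ∑ A : K, v A * (d • g) A = d * ∑ A : K, v A * g A := by
      rw [mul_sum]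
      refine sum_congr rfl fun A _ => ?_
      simp only [Pi.smul_apply, smul_eq_mul]; ring
    rw [h2, h3] at h1
    have h4 : μ = d := mul_right_cancel₀ hpos.ne' h1
    show 0 ≤ μ
    rw [h4]; exact hd
  have hq := hpsd.dotProduct_mulVec_nonneg (fun A : K => u A.1)
  have hfinal : ∑ A ∈ K, ∑ B ∈ K, u A * D A B * u B =
      star (fun A : K => u A.1) ⬝ᵥ (M.mulVec (fun A : K => u A.1)) := by
    rw [hsum]
    simp only [dotProduct, Matrix.mulVec, Pi.star_apply, star_trivial]
    refine sum_congr rfl fun A _ => ?_
    rw [hsum, mul_sum]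
    refine sum_congr rfl fun B _ => ?_
    simp only [hM, Matrix.of_apply]
    ring
  rw [← hfinal] at hq
  exact hq

end Pool.Agent.Helper93.EKR
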