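import Mathlib

open Polynomial Metric Set Filter Topology

namespace Pool.Agent.Helper93.FU

lemma maxmod {R : ℝ} (hR : 0 < R) (f : ℂ → ℂ) (hf : Differentiable ℂ f) {C : ℝ}
    (hC : ∀ z : ℂ, ‖z‖ = R → ‖f z‖ ≤ C) (z : ℂ) (hz : ‖z‖ ≤ R) : ‖f z‖ ≤ C := by
  have h1 : z ∈ closure (ball (0:ℂ) R) := by
    rw [closure_ball _ hR.ne']; simpa using hz
  refine Complex.norm_le_of_forall_mem_frontier_norm_le (U := ball (0:ℂ) R) isBounded_ball
    hf.diffContOnCl ?_ h1
  intro w hw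
  rw [frontier_ball _ hR.ne'] at hw
  exact hC w (by simpa using hw)

lemma crude (P : ℂ[X]) (m : ℕ) (hm : P.natDegree ≤ m) (c : ℂ) (s : ℝ) (hs : 0 < s)
    (h : ∀ z, ‖z - c‖ ≤ s → ‖P.eval z‖ ≤ 1) (z : ℂ) (hz : s ≤ ‖z - c‖) :
    ‖P.eval z‖ ≤ (‖z - c‖ / s) ^ m := by
  set Q : ℂ[X] := P.comp (C (s:ℂ) * X + C c) with hQ
  have hQdeg : Q.natDegree ≤ m := by
    calc Q.natDegree ≤ P.natDegree * (C (s:ℂ) * X + C c).natDegree := natDegree_comp_le
      _ ≤ P.natDegree * 1 := by gcongr; exact natDegree_linear_le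
      _ ≤ m := by omega
  have hQe : ∀ w, Q.eval w = P.eval (s * w + c) := by intro w; simp [hQ]
  have key : ∀ w : ℂ, w ≠ 0 → (reflect m Q).eval w⁻¹ * w ^ m = Q.eval w := by
    intro w hw
    let _ : Invertible w := invertibleOfNonzero hw
    have := eval₂_reflect_mul_pow (RingHom.id ℂ) w m Q hQdeg
    rw [invOf_eq_inv] at this
    exact this
  have hR1 : ∀ u : ℂ, ‖u‖ = 1 → ‖(reflect m Q).eval u‖ ≤ 1 := by
    intro u hu
    have hu0 : u ≠ 0 := by intro h0; simp [h0] at hu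
    have h1 := key u⁻¹ (inv_ne_zero hu0)
    have h2 : ‖Q.eval u⁻¹‖ ≤ 1 := by
      rw [hQe]; apply h
      simp [hu, abs_of_pos hs]
    rw [← h1] at h2
    simpa [hu] using h2
  have hR2 : ∀ u : ℂ, ‖u‖ ≤ 1 → ‖(reflect m Q).eval u‖ ≤ 1 :=
    fun u hu => maxmod one_pos _ (reflect m Q).differentiable hR1 u hu
  set w : ℂ := (z - c) / s with hw
  have hsC : (s:ℂ) ≠ 0 := by exact_mod_cast hs.ne'
  have hwn : ‖w‖ = ‖z - c‖ / s := by simp [hw, abs_of_pos hs]
  have hw1 : 1 ≤ ‖w‖ := by rw [hwn, le_div_iff₀ hs]; simpa using hz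
  have hw0 : w ≠ 0 := by intro h0; rw [h0] at hw1; simp at hw1; linarith
  have hPQ : P.eval z = Q.eval w := by
    rw [hQe]; congr 1; rw [hw]; field_simp; ring
  rw [hPQ, ← key w hw0, norm_mul, norm_pow, ← hwn]
  have : ‖(reflect m Q).eval w⁻¹‖ ≤ 1 := hR2 _ (by rw [norm_inv]; exact inv_le_one_of_one_le₀ hw1)
  calc _ ≤ 1 * ‖w‖ ^ m := by gcongr
    _ = _ := one_mul _

lemma iteratedDeriv_poly (P : ℂ[X]) (n : ℕ) :
    iteratedDeriv n (fun z => P.eval z) = fun z => (derivative^[n] P).eval z := by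
  induction n with
  | zero => simp
  | succ n ih =>
    rw [iteratedDeriv_succ, ih]
    funext z
    rw [Function.iterate_succ_apply']
    exact Polynomial.deriv _

lemma coeff_bound (P : ℂ[X]) {ρ M : ℝ} (hρ : 0 < ρ) (h : ∀ z : ℂ, ‖z‖ = ρ → ‖P.eval z‖ ≤ M)
    (k : ℕ) : ‖P.coeff k‖ ≤ M / ρ ^ k := by
  have h1 := Complex.norm_iteratedDeriv_le_of_forall_mem_sphere_norm_le (c := 0) (R := ρ) (C := M)
    (f := fun z => P.eval z) k hρ P.differentiable.diffContOnCl
    (fun z hz => h z (by simpa using hz))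
  rw [iteratedDeriv_poly] at h1
  have h2 : (derivative^[k] P).eval 0 = (k.factorial : ℂ) * P.coeff k := by
    rw [← coeff_zero_eq_eval_zero, coeff_iterate_derivative]
    simp [Nat.descFactorial_self]
  simp only [h2] at h1
  rw [norm_mul, Complex.norm_natCast, mul_div_assoc] at h1
  have hk : (0:ℝ) < k.factorial := by exact_mod_cast k.factorial_pos
  exact le_of_mul_le_mul_left h1 hk

/-- the compact set : closed annulus minus an open half strip -/
def Kset (r R ε : ℝ) : Set ℂ := {z | r ≤ ‖z‖ ∧ ‖z‖ ≤ R ∧ ¬ (0 < z.re ∧ |z.im| < ε)}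

lemma Kset_compact (r R ε : ℝ) : IsCompact (Kset r R ε) := by
  apply isCompact_of_isClosed_isBounded
  · have h1 : IsClosed {z : ℂ | r ≤ ‖z‖} := isClosed_le continuous_const continuous_norm
    have h2 : IsClosed {z : ℂ | ‖z‖ ≤ R} := isClosed_le continuous_norm continuous_const
    have h3 : IsOpen {z : ℂ | 0 < z.re ∧ |z.im| < ε} :=
      (isOpen_lt continuous_const Complex.continuous_re).inter
        (isOpen_lt (Complex.continuous_im.abs) continuous_const)
    have : Kset r R ε = {z : ℂ | r ≤ ‖z‖} ∩ ({z : ℂ | ‖z‖ ≤ R} ∩ {z : ℂ | 0 < z.re ∧ |z.im| < ε}ᶜ) := by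
      ext z; simp [Kset]
    rw [this]
    exact h1.inter (h2.inter h3.isClosed_compl)
  · refine (isBounded_closedBall (x := (0:ℂ)) (r := R)).subset ?_
    intro z hz
    simpa using hz.2.1

lemma exterior_preconnected {R : ℝ} (hR : 0 < R) : IsPreconnected {z : ℂ | R < ‖z‖} := by
  have h1 : {z : ℂ | R < ‖z‖} = Complex.exp '' {w : ℂ | Real.log R < w.re} := by
    ext z
    constructor
    · intro hz
      have hz' : R < ‖z‖ := hz
      have hz0 : z ≠ 0 := by
        intro h0; rw [h0] at hz'; simp at hz'; linarith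
      refine ⟨Complex.log z, ?_, Complex.exp_log hz0⟩
      show Real.log R < (Complex.log z).re
      rw [Complex.log_re]
      exact Real.log_lt_log hR hz'
    · rintro ⟨w, hw, rfl⟩
      show R < ‖Complex.exp w‖
      rw [Complex.norm_exp]
      exact (Real.log_lt_iff_lt_exp hR).1 hw
  rw [h1]
  apply IsPreconnected.image _ _ Complex.continuous_exp.continuousOn
  apply Convex.isPreconnected
  exact convex_halfSpace_re_gt _

lemma Kset_compl_connected {r R ε : ℝ} (hr : 0 < r) (hrR : r < R) (hε : 0 < ε) :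
    IsConnected (Kset r R ε)ᶜ := by
  have hR : 0 < R := hr.trans hrR
  have h1 : (Kset r R ε)ᶜ = (ball (0:ℂ) r ∪ {z : ℂ | 0 < z.re ∧ |z.im| < ε}) ∪ {z : ℂ | R < ‖z‖} := by
    ext z
    simp only [Kset, mem_compl_iff, mem_ofPred_eq, mem_union, mem_ball, dist_zero_right]
    constructor
    · intro h
      by_contra hcon
      push Not at hcon
      apply h
      refine ⟨hcon.1.1, hcon.2, ?_⟩
      rintro ⟨ha, hb⟩
      exact absurd hb (not_lt.2 (hcon.1.2 ha))
    · rintro ((h | h) | h) ⟨h2, h3, h4⟩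
      · linarith
      · exact h4 h
      · linarith
  rw [h1]
  have hc : Convex ℝ {z : ℂ | 0 < z.re ∧ |z.im| < ε} := by
    have : {z : ℂ | 0 < z.re ∧ |z.im| < ε} = {z : ℂ | 0 < z.re} ∩ ({z : ℂ | z.im < ε} ∩ {z : ℂ | -ε < z.im}) := by
      ext z; simp only [mem_ofPred_eq, mem_inter_iff, abs_lt]; tauto
    rw [this]
    exact (convex_halfSpace_re_gt _).inter ((convex_halfSpace_im_lt _).inter (convex_halfSpace_im_gt _))
  refine ⟨⟨0, Or.inl (Or.inl (by simpa using hr))⟩, ?_⟩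
  have ha : IsPreconnected (ball (0:ℂ) r ∪ {z : ℂ | 0 < z.re ∧ |z.im| < ε}) := by
    refine IsPreconnected.union ((r/2 : ℝ) : ℂ) ?_ ?_ (convex_ball _ _).isPreconnected hc.isPreconnected
    · simp [abs_of_pos hr]; linarith
    · simp; exact ⟨hr, hε⟩
  refine IsPreconnected.union ((R+1 : ℝ) : ℂ) ?_ ?_ ha (exterior_preconnected hR)
  · right; constructor
    · simp; linarith
    · simp; exact hε
  · show R < ‖((R+1 : ℝ) : ℂ)‖
    rw [Complex.norm_real, Real.norm_eq_abs, abs_of_pos (by linarith)]; linarith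

/-- Main analytic estimate. -/
lemma poly_small {r R : ℝ} (hr : 0 < r) (hrR : r < R) {ρ : ℝ} (hρ : ρ < R) (t : ℕ) :
    ∃ ε > 0, ∀ (m : ℕ) (P : ℂ[X]), P.natDegree ≤ m → (∀ z ∈ Kset r R ε, ‖P.eval z‖ ≤ 1) →
      ∀ z : ℂ, ‖z‖ ≤ ρ → ‖P.eval z‖ ^ t ≤ ((2 * R + 2) / (R - ρ)) ^ m := by
  have hR : 0 < R := hr.trans hrR
  set s : ℝ := (R - r) / 2 with hs
  have hspos : 0 < s := by rw [hs]; linarith
  set c : ℂ := ((-(r + R) / 2 : ℝ) : ℂ) with hc
  set A : ℝ := 2 * R / s with hA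
  have hA1 : 1 ≤ A := by
    rw [hA, le_div_iff₀ hspos, hs]; linarith
  have hApos : 0 < A := by linarith
  obtain ⟨ε, hε0, hε1, hεR, hεA⟩ : ∃ ε : ℝ, 0 < ε ∧ ε ≤ 1 ∧ ε ≤ R ∧ A ^ t * (2 * ε / R) ≤ 1 := by
    refine ⟨min (min 1 R) (R / (2 * A ^ t)), by positivity, ?_, ?_, ?_⟩
    · exact (min_le_left _ _).trans (min_le_left _ _)
    · exact (min_le_left _ _).trans (min_le_right _ _)
    · have : min (min 1 R) (R / (2 * A ^ t)) ≤ R / (2 * A ^ t) := min_le_right _ _
      calc A ^ t * (2 * min (min 1 R) (R / (2 * A ^ t)) / R)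
          ≤ A ^ t * (2 * (R / (2 * A ^ t)) / R) := by gcongr
        _ = 1 := by field_simp
  refine ⟨ε, hε0, ?_⟩
  intro m P hm hP z hz
  -- crude bound
  have hball : ∀ w : ℂ, ‖w - c‖ ≤ s → ‖P.eval w‖ ≤ 1 := by
    intro w hw
    apply hP
    have hre : |w.re - (-(r + R) / 2)| ≤ s := by
      have := Complex.abs_re_le_norm (w - c)
      have h2 : (w - c).re = w.re - (-(r + R) / 2) := by simp [hc]
      rw [h2] at this; linarith
    have hre' := abs_le.1 hre
    have hcn : ‖c‖ = (r + R) / 2 := by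
      rw [hc, Complex.norm_real, Real.norm_eq_abs, neg_div, abs_neg, abs_of_pos (by linarith)]
    have h3 : ‖w‖ ≤ ‖w - c‖ + ‖c‖ := by
      simpa using norm_add_le (w - c) c
    have h4 : ‖c‖ ≤ ‖w - c‖ + ‖w‖ := by
      have := norm_add_le (c - w) w
      rw [sub_add_cancel, norm_sub_rev] at this
      exact this
    refine ⟨by linarith, by linarith, ?_⟩
    rintro ⟨h5, -⟩
    linarith [hre'.2]
  have hcrude : ∀ w : ℂ, ‖w‖ ≤ R → ‖P.eval w‖ ≤ A ^ m := by
    intro w hw
    by_cases hws : ‖w - c‖ ≤ s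
    · exact (hball w hws).trans (one_le_pow₀ hA1)
    · push Not at hws
      refine (crude P m hm c s hspos hball w hws.le).trans ?_
      have hcn : ‖c‖ = (r + R) / 2 := by
        rw [hc, Complex.norm_real, Real.norm_eq_abs, neg_div, abs_neg, abs_of_pos (by linarith)]
      have : ‖w - c‖ ≤ 2 * R := by
        calc ‖w - c‖ ≤ ‖w‖ + ‖c‖ := norm_sub_le _ _
          _ ≤ 2 * R := by rw [hcn]; linarith
      rw [hA]
      gcongr
  -- multiplier
  set D : ℝ := 2 * R + 2 * ε with hD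
  have hDpos : 0 < D := by rw [hD]; linarith
  set h : ℂ → ℂ := fun w => ((R + 2 * ε : ℝ) - w) / (D : ℂ) with hh
  have hhd : Differentiable ℂ h := by
    rw [hh]; fun_prop
  have hDn : ‖(D:ℂ)‖ = D := by rw [Complex.norm_real, Real.norm_eq_abs, abs_of_pos hDpos]
  have hF : ∀ w : ℂ, ‖w‖ = R → ‖(P.eval w) ^ t * (h w) ^ m‖ ≤ 1 := by
    intro w hw
    rw [norm_mul, norm_pow, norm_pow]
    have hhn : ‖h w‖ ≤ 1 := by
      rw [hh]; simp only; rw [norm_div, hDn, div_le_one hDpos]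
      calc ‖((R + 2 * ε : ℝ) : ℂ) - w‖ ≤ ‖((R + 2 * ε : ℝ) : ℂ)‖ + ‖w‖ := norm_sub_le _ _
        _ = D := by
          rw [Complex.norm_real, Real.norm_eq_abs, abs_of_pos (by linarith), hw, hD]; ring
    by_cases hwK : w ∈ Kset r R ε
    · calc ‖P.eval w‖ ^ t * ‖h w‖ ^ m ≤ 1 ^ t * 1 ^ m := by
            gcongr
            exact hP w hwK
        _ = 1 := by simp
    · have hbad : 0 < w.re ∧ |w.im| < ε := by
        by_contra hcon
        exact hwK ⟨by rw [hw]; exact hrR.le, hw.le, hcon⟩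
      have hclose : ‖(R : ℂ) - w‖ ≤ 2 * ε := by
        have hsq : w.re ^ 2 + w.im ^ 2 = R ^ 2 := by
          have := Complex.sq_norm w
          rw [Complex.normSq_apply, hw] at this
          linarith [this, sq w.re, sq w.im]
        have hreR : w.re ≤ R := by
          have := Complex.re_le_norm w; linarith
        have hy : w.im ^ 2 ≤ ε ^ 2 := by
          rw [← sq_abs]; gcongr; exact hbad.2.le
        have hx : R - w.re ≤ ε := by
          have h5 : (R - w.re) * (R + w.re) = w.im ^ 2 := by nlinarith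
          have h6 : (R - w.re) * R ≤ ε * R := by
            calc (R - w.re) * R ≤ (R - w.re) * (R + w.re) := by
                  apply mul_le_mul_of_nonneg_left _ (by linarith); linarith [hbad.1]
              _ ≤ ε ^ 2 := by rw [h5]; exact hy
              _ ≤ ε * R := by nlinarith
          exact le_of_mul_le_mul_right h6 hR
        calc ‖(R : ℂ) - w‖ ≤ |((R:ℂ) - w).re| + |((R:ℂ) - w).im| := Complex.norm_le_abs_re_add_abs_im _
          _ ≤ ε + ε := by
            have e1 : ((R:ℂ) - w).re = R - w.re := by simp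
            have e2 : ((R:ℂ) - w).im = - w.im := by simp
            rw [e1, e2, abs_neg]
            gcongr
            · rw [abs_of_nonneg (by linarith)]; exact hx
            · exact hbad.2.le
          _ = 2 * ε := by ring
      have hhn2 : ‖h w‖ ≤ 2 * ε / R := by
        rw [hh]; simp only; rw [norm_div, hDn, div_le_div_iff₀ hDpos hR]
        have : ‖((R + 2 * ε : ℝ) : ℂ) - w‖ ≤ 4 * ε := by
          have e : ((R + 2 * ε : ℝ) : ℂ) - w = ((R:ℂ) - w) + ((2 * ε : ℝ) : ℂ) := by push_cast; ring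
          rw [e]
          calc _ ≤ ‖(R:ℂ) - w‖ + ‖((2 * ε : ℝ) : ℂ)‖ := norm_add_le _ _
            _ ≤ 2 * ε + 2 * ε := by
              gcongr
              rw [Complex.norm_real, Real.norm_eq_abs, abs_of_pos (by linarith)]
            _ = 4 * ε := by ring
        calc _ ≤ 4 * ε * R := by gcongr
          _ ≤ 2 * ε * D := by rw [hD]; nlinarith
      calc ‖P.eval w‖ ^ t * ‖h w‖ ^ m ≤ (A ^ m) ^ t * (2 * ε / R) ^ m := by
            gcongr
            exact hcrude w hw.le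
        _ = (A ^ t * (2 * ε / R)) ^ m := by rw [mul_pow, ← pow_mul, ← pow_mul, mul_comm m t]
        _ ≤ 1 := pow_le_one₀ (by positivity) hεA
  have hFd : Differentiable ℂ (fun w => (P.eval w) ^ t * (h w) ^ m) :=
    (P.differentiable.pow t).mul (hhd.pow m)
  have h7 := maxmod hR _ hFd hF z (hz.trans hρ.le)
  simp only [norm_mul, norm_pow] at h7
  have hhz : (R - ρ) / (2 * R + 2) ≤ ‖h z‖ := by
    rw [hh]; simp only; rw [norm_div, hDn]
    have h8 : R - ρ ≤ ‖((R + 2 * ε : ℝ) : ℂ) - z‖ := by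
      have h9 := norm_sub_norm_le (((R + 2 * ε : ℝ) : ℂ)) z
      rw [Complex.norm_real, Real.norm_eq_abs, abs_of_pos (by linarith)] at h9
      linarith
    rw [div_le_div_iff₀ (by linarith) hDpos]
    have h10 : 0 < R - ρ := by linarith
    calc (R - ρ) * D ≤ ‖((R + 2 * ε : ℝ) : ℂ) - z‖ * D := by gcongr
      _ ≤ ‖((R + 2 * ε : ℝ) : ℂ) - z‖ * (2 * R + 2) := by
        gcongr; rw [hD]; linarith
  have hb : 0 < (R - ρ) / (2 * R + 2) := div_pos (by linarith) (by linarith)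
  have h11 : ‖P.eval z‖ ^ t * ((R - ρ) / (2 * R + 2)) ^ m ≤ 1 := by
    refine le_trans ?_ h7
    gcongr
  have h12 : ((2 * R + 2) / (R - ρ)) ^ m = (((R - ρ) / (2 * R + 2)) ^ m)⁻¹ := by
    rw [← inv_pow, inv_div]
  rw [h12, ← one_div, le_div_iff₀ (pow_pos hb m)]
  exact h11

end Pool.Agent.Helper93.FU
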