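import Mathlib

/-! Auxiliary semigroups used for inclusive varieties. -/

namespace Pool.Agent.Helper93.IV

abbrev W := FreeSemigroup ℕ

/-- the congruence identifying all words longer than `n` -/
def nilCon (n : ℕ) : Con W where
  r w w' := w = w' ∨ (n < w.length ∧ n < w'.length)
  iseqv :=
    { refl := fun _ => Or.inl rfl
      symm := by
        rintro x y (h | h)
        · exact Or.inl h.symm
        · exact Or.inr ⟨h.2, h.1⟩
      trans := by
        rintro x y z (h | h) (h' | h')
        · exact Or.inl (h.trans h')
        · subst h; exact Or.inr h'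
        · subst h'; exact Or.inr h
        · exact Or.inr ⟨h.1, h'.2⟩ }
  mul' := by
    rintro w x y z (h | h) (h' | h')
    · subst h; subst h'; exact Or.inl rfl
    · right; simp only [FreeSemigroup.length_mul]; omega
    · right; simp only [FreeSemigroup.length_mul]; omega
    · right; simp only [FreeSemigroup.length_mul]; omega

lemma nilCon_iff {n : ℕ} {w w' : W} :
    ((w : (nilCon n).Quotient) = (w' : (nilCon n).Quotient)) ↔
      (w = w' ∨ (n < w.length ∧ n < w'.length)) := by
  rw [Con.eq]; rfl

lemma one_le_length (w : W) : 1 ≤ w.length := by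
  unfold FreeSemigroup.length; omega

lemma nil_image {n : ℕ} (φ : W →ₙ* (nilCon n).Quotient) (w : W) :
    ∃ w' : W, φ w = (w' : (nilCon n).Quotient) ∧ w.length ≤ w'.length := by
  induction w using FreeSemigroup.recOnMul with
  | ih1 x =>
    obtain ⟨y, hy⟩ := Quotient.exists_rep (φ (FreeSemigroup.of x))
    exact ⟨y, hy.symm, one_le_length y⟩
  | ih2 x y hx hy =>
    obtain ⟨a, ha, ha'⟩ := hx
    obtain ⟨b, hb, hb'⟩ := hy
    refine ⟨a * b, by rw [map_mul, ha, hb]; rfl, ?_⟩
    rw [FreeSemigroup.length_mul, FreeSemigroup.length_mul]; omega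

lemma nil_image_eq {n : ℕ} (φ : W →ₙ* (nilCon n).Quotient) (w w' : W)
    (hw : n < w.length) (hw' : n < w'.length) : φ w = φ w' := by
  obtain ⟨a, ha, ha'⟩ := nil_image φ w
  obtain ⟨b, hb, hb'⟩ := nil_image φ w'
  rw [ha, hb, nilCon_iff]
  right; omega

/-- `rep z k = z^(k+1)` -/
def rep (z : W) : ℕ → W
  | 0 => z
  | (k + 1) => z * rep z k

lemma rep_length (z : W) (k : ℕ) : (rep z k).length = (k + 1) * z.length := by
  induction k with
  | zero => simp [rep]
  | succ k ih => rw [rep, FreeSemigroup.length_mul, ih]; ring

lemma rep_map {G : Type*} [Monoid G] (φ : W →ₙ* G) (z : W) (k : ℕ) :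
    φ (rep z k) = φ z ^ (k + 1) := by
  induction k with
  | zero => simp [rep]
  | succ k ih => rw [rep, map_mul, ih, pow_succ' (φ z) (k + 1)]

/-! ### finite permutation groups separating words -/

/-- lists over `Fin k` of length at most `n` -/
abbrev Lst (k n : ℕ) := {l : List (Fin k) // l.length ≤ n}

instance (k n : ℕ) : Finite (Lst k n) := (List.finite_length_le (Fin k) n).to_subtype

/-- the partial injection `l ↦ i :: l` -/
def consEquiv (k n : ℕ) (i : Fin k) :
    {l : Lst k n // l.1.length < n} ≃ {l : Lst k n // l.1.head? = some i} where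
  toFun l := ⟨⟨i :: l.1.1, by simpa using l.2⟩, by simp⟩
  invFun l := ⟨⟨l.1.1.tail, by have := l.1.2; simp; omega⟩, by
    have h1 := l.1.2
    have h2 := l.2
    have h4 : l.1.1 ≠ [] := by
      intro h
      rw [h] at h2
      simp at h2
    have h5 := List.length_pos_iff.2 h4
    show l.1.1.tail.length < n
    rw [List.length_tail]
    omega⟩
  left_inv l := by simp
  right_inv l := by
    have h2 := l.2
    rcases h3 : l.1.1 with _ | ⟨a, t⟩
    · rw [h3] at h2; simp at h2
    · rw [h3] at h2
      simp only [List.head?_cons, Option.some.injEq] at h2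
      subst h2
      apply Subtype.ext
      apply Subtype.ext
      simp [h3]

open Classical in
/-- permutation attached to a letter -/
noncomputable def letterPerm (k n : ℕ) (y : ℕ) : Equiv.Perm (Lst k n) :=
  if h : y < k then (consEquiv k n ⟨y, h⟩).extendSubtype else 1

/-- the list of a word -/
def toL (w : W) : List ℕ := w.head :: w.tail

lemma toL_mul (w w' : W) : toL (w * w') = toL w ++ toL w' := by
  simp [toL]

lemma toL_length (w : W) : (toL w).length = w.length := by
  simp [toL, FreeSemigroup.length]

lemma toL_injective : Function.Injective toL := by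
  intro w w' h
  simp only [toL, List.cons.injEq] at h
  exact FreeSemigroup.ext h.1 h.2

lemma perm_apply (k n : ℕ) (w : W) :
    ∀ l : Lst k n, (∀ y ∈ toL w, y < k) → w.length + l.1.length ≤ n →
      (((FreeSemigroup.lift (letterPerm k n) w) l).1.map Fin.val) = toL w ++ l.1.map Fin.val := by
  induction w using FreeSemigroup.recOnMul with
  | ih1 x =>
    intro l hk hl
    have hx : x < k := hk x (by simp [toL])
    have hlt : l.1.length < n := by
      simp only [FreeSemigroup.length_of] at hl; omega
    rw [FreeSemigroup.lift_of, letterPerm, dif_pos hx]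
    rw [Equiv.extendSubtype_apply_of_mem _ l hlt]
    simp [consEquiv, toL]
  | ih2 x y hx hy =>
    intro l hk hl
    rw [map_mul, Equiv.Perm.mul_apply]
    rw [FreeSemigroup.length_mul] at hl
    have h1 := hy l (fun a ha => hk a (by rw [toL_mul]; simp [ha])) (by omega)
    have hlen : ((FreeSemigroup.lift (letterPerm k n) y) l).1.length = y.length + l.1.length := by
      have := congrArg List.length h1
      simpa [toL_length] using this
    rw [hx _ (fun a ha => hk a (by rw [toL_mul]; simp only [List.mem_append]; exact Or.inl ha))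
      (by omega), h1, toL_mul, List.append_assoc]

/-- any finite set of words is separated by a homomorphism into a finite group. -/
lemma exists_separating (F : Set W) (hF : F.Finite) :
    ∃ (k n : ℕ), Set.InjOn (FreeSemigroup.lift (letterPerm k n)) F := by
  obtain ⟨n, hn⟩ := (hF.image FreeSemigroup.length).bddAbove
  have hF2 : (⋃ w ∈ F, {y | y ∈ toL w}).Finite := by
    apply hF.biUnion
    intro w _
    exact List.finite_toSet (toL w)
  obtain ⟨k, hk⟩ := hF2.bddAbove
  refine ⟨k + 1, n, ?_⟩
  have key : ∀ w ∈ F, (((FreeSemigroup.lift (letterPerm (k+1) n) w) ⟨[], by simp⟩).1.map Fin.val)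
      = toL w := by
    intro w hw
    have := perm_apply (k + 1) n w ⟨[], by simp⟩ (fun y hy => ?_) ?_
    · simpa using this
    · have : y ≤ k := hk (Set.mem_biUnion hw hy)
      omega
    · have : w.length ≤ n := hn ⟨w, hw, rfl⟩
      simpa using this
  intro w hw w' hw' h
  apply toL_injective
  rw [← key w hw, ← key w' hw', h]

end Pool.Agent.Helper93.IV
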